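import Pool.Agent.H711.IN.Spec

/-!
Vectors for the rows and columns of a block of a symmetric matrix with few negative eigenvalues,
which are short on average.
-/

set_option autoImplicit false

namespace Pool.Agent.H711.IN

open Finset

/-- The nuclear norm. -/
theorem trace_norm {W : Type} [Fintype W] {N : W → W → ℝ} {l : W → ℝ} {e : W → W → ℝ}
    (h : Spec N l e) (t : ℕ) [DecidablePred fun i => l i < 0]
    (ht : (univ.filter fun i => l i < 0).card ≤ t) (P : ℝ) (hP : 0 ≤ P) (h1 : ∑ w, N w w ≤ P)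
    (h2 : ∑ w, ∑ w', N w w' ^ 2 ≤ P ^ 2) : ∑ i, |l i| ≤ P * (1 + 2 * √t) := by
  set s := univ.filter fun i => l i < 0 with hs
  have e1 : ∀ i, |l i| = l i + 2 * (if l i < 0 then -l i else 0) := by
    intro i
    by_cases hi : l i < 0
    · rw [if_pos hi, abs_of_neg hi]; ring
    · rw [if_neg hi, abs_of_nonneg (not_lt.mp hi)]; ring
  have e2 : ∑ i, |l i| = ∑ i, l i + 2 * ∑ i ∈ s, -l i := by
    rw [Finset.sum_congr rfl fun i _ => e1 i, Finset.sum_add_distrib, ← Finset.mul_sum, hs,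
      Finset.sum_filter]
  have e3 : (∑ i ∈ s, -l i) ^ 2 ≤ t * P ^ 2 := by
    calc (∑ i ∈ s, -l i) ^ 2 ≤ s.card * ∑ i ∈ s, (-l i) ^ 2 := sq_sum_le_card_mul_sum_sq
      _ ≤ t * ∑ i, l i ^ 2 := by
          refine mul_le_mul (by exact_mod_cast ht) ?_ (Finset.sum_nonneg fun i _ => sq_nonneg _)
            (Nat.cast_nonneg _)
          rw [Finset.sum_congr rfl fun i _ => neg_sq (l i)]
          exact Finset.sum_le_sum_of_subset_of_nonneg (Finset.subset_univ _)
            fun i _ _ => sq_nonneg _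
      _ ≤ t * P ^ 2 := by
          rw [← h.frob]
          exact mul_le_mul_of_nonneg_left h2 (Nat.cast_nonneg _)
  have e4 : ∑ i ∈ s, -l i ≤ √t * P := by
    have h0 : 0 ≤ √t * P := mul_nonneg (Real.sqrt_nonneg _) hP
    refine le_of_sq_le_sq ?_ h0
    rw [mul_pow, Real.sq_sqrt (Nat.cast_nonneg _)]
    exact e3
  rw [e2, ← h.trace]
  linarith

/-- The bound for the average of the squares of the lengths of the vectors. -/
noncomputable def gam (β θ : ℝ) (t : ℕ) : ℝ := 2 * (β + θ) * (1 + 2 * √t) + θ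

theorem gam_nonneg {β θ : ℝ} (hβ : 0 ≤ β) (hθ : 0 ≤ θ) (t : ℕ) : 0 ≤ gam β θ t := by
  unfold gam
  positivity

theorem vectors {X Y Z : Type} [Fintype Z] (S : Z → Z → ℝ) (hS : ∀ z z', S z z' = S z' z)
    (β θ : ℝ) (hβ0 : 0 ≤ β) (hθ0 : 0 ≤ θ) (hβ : ∀ z z', |S z z'| ≤ β) (t : ℕ) (hneg : NegLe S θ t)
    (a : X → Z) (b : Y → Z) (A : Finset X) (B : Finset Y) (hA : A.Nonempty) (hB : B.Nonempty) :
    ∃ (K : Type) (_ : Fintype K) (u : X → EuclideanSpace ℝ K) (v : Y → EuclideanSpace ℝ K),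
      (∀ x ∈ A, ∀ y ∈ B, inner ℝ (u x) (v y) = S (a x) (b y)) ∧
      ∑ x ∈ A, ‖u x‖ ^ 2 ≤ gam β θ t * A.card ∧ ∑ y ∈ B, ‖v y‖ ^ 2 ≤ gam β θ t * B.card := by
  classical
  have hA0 : (0 : ℝ) < A.card := by exact_mod_cast hA.card_pos
  have hB0 : (0 : ℝ) < B.card := by exact_mod_cast hB.card_pos
  set g : A ⊕ B → Z := Sum.elim (fun x => a x.1) (fun y => b y.1) with hg
  set c : A ⊕ B → ℝ := Sum.elim (fun _ => (√A.card)⁻¹) (fun _ => (√B.card)⁻¹) with hc
  set N : A ⊕ B → A ⊕ B → ℝ :=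
    fun w w' => c w * c w' * (S (g w) (g w') + if g w = g w' then θ else 0) with hN
  have hNsymm : ∀ w w', N w w' = N w' w := by
    intro w w'
    rw [hN]
    simp only
    rw [hS (g w) (g w')]
    by_cases hgg : g w = g w'
    · rw [if_pos hgg, if_pos hgg.symm]; ring
    · rw [if_neg hgg, if_neg (Ne.symm hgg)]; ring
  obtain ⟨l, e, hspec⟩ := exists_spec N hNsymm
  have hcount := neg_count S θ t hneg g c hspec
  have hc0 : ∀ w, 0 ≤ c w := by
    rintro (x | y)
    · exact inv_nonneg.mpr (Real.sqrt_nonneg _)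
    · exact inv_nonneg.mpr (Real.sqrt_nonneg _)
  have hc2 : ∑ w, c w ^ 2 = 2 := by
    rw [Fintype.sum_sum_type]
    simp only [hc, Sum.elim_inl, Sum.elim_inr, Finset.sum_const, Finset.card_univ,
      Fintype.card_coe, nsmul_eq_mul, inv_pow]
    rw [Real.sq_sqrt hA0.le, Real.sq_sqrt hB0.le, mul_inv_cancel₀ hA0.ne',
      mul_inv_cancel₀ hB0.ne']
    norm_num
  have hent : ∀ w w', |S (g w) (g w') + if g w = g w' then θ else 0| ≤ β + θ := by
    intro w w'
    refine (abs_add_le _ _).trans (add_le_add (hβ _ _) ?_)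
    split_ifs
    · rw [abs_of_nonneg hθ0]
    · rw [abs_zero]; exact hθ0
  have hbt : 0 ≤ β + θ := by linarith
  have htr : ∑ w, N w w ≤ 2 * (β + θ) := by
    calc ∑ w, N w w ≤ ∑ w, c w ^ 2 * (β + θ) := by
          refine Finset.sum_le_sum fun w _ => ?_
          show c w * c w * (S (g w) (g w) + if g w = g w then θ else 0) ≤ _
          rw [← sq]
          exact mul_le_mul_of_nonneg_left ((le_abs_self _).trans (hent w w)) (sq_nonneg _)
      _ = 2 * (β + θ) := by rw [← Finset.sum_mul, hc2]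
  have hfr : ∑ w, ∑ w', N w w' ^ 2 ≤ (2 * (β + θ)) ^ 2 := by
    calc ∑ w, ∑ w', N w w' ^ 2 ≤ ∑ w, ∑ w', (c w ^ 2 * c w' ^ 2) * (β + θ) ^ 2 := by
          refine Finset.sum_le_sum fun w _ => Finset.sum_le_sum fun w' _ => ?_
          rw [hN]
          simp only
          rw [mul_pow, mul_pow]
          refine mul_le_mul_of_nonneg_left ?_ (by positivity)
          rw [← sq_abs]
          exact pow_le_pow_left₀ (abs_nonneg _) (hent w w') 2
      _ = (2 * (β + θ)) ^ 2 := by
          have h1 : ∀ w, ∑ w', (c w ^ 2 * c w' ^ 2) * (β + θ) ^ 2 = c w ^ 2 * (2 * (β + θ) ^ 2) := by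
            intro w
            rw [← Finset.sum_mul, ← Finset.mul_sum, hc2]
            ring
          rw [Finset.sum_congr rfl fun w _ => h1 w, ← Finset.sum_mul, hc2]
          ring
  have hnuc := trace_norm hspec t hcount (2 * (β + θ)) (by linarith) htr hfr
  -- the vectors
  set sg : ℝ → ℝ := fun z => if z < 0 then -1 else 1 with hsg
  have hsg2 : ∀ z, sg z ^ 2 = 1 := by
    intro z
    rw [hsg]
    simp only
    split_ifs <;> norm_num
  have hsga : ∀ z, sg z * |z| = z := by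
    intro z
    rw [hsg]
    simp only
    split_ifs with hz
    · rw [abs_of_neg hz]; ring
    · rw [abs_of_nonneg (not_lt.mp hz)]; ring
  set u : X → EuclideanSpace ℝ ((A ⊕ B) ⊕ Z) := fun x => WithLp.toLp 2 (Sum.elim
    (fun i => if hx : x ∈ A then √A.card * (√|l i| * e i (Sum.inl ⟨x, hx⟩)) else 0)
    (fun z => if a x = z then √θ else 0)) with hu
  set v : Y → EuclideanSpace ℝ ((A ⊕ B) ⊕ Z) := fun y => WithLp.toLp 2 (Sum.elim
    (fun i => if hy : y ∈ B then √B.card * (sg (l i) * (√|l i| * e i (Sum.inr ⟨y, hy⟩))) else 0)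
    (fun z => if b y = z then -√θ else 0)) with hv
  refine ⟨(A ⊕ B) ⊕ Z, inferInstance, u, v, ?_, ?_, ?_⟩
  · intro x hx y hy
    rw [PiLp.inner_apply, Fintype.sum_sum_type]
    have e1 : ∑ i : A ⊕ B, inner ℝ ((u x) (Sum.inl i)) ((v y) (Sum.inl i)) =
        √A.card * √B.card * N (Sum.inl ⟨x, hx⟩) (Sum.inr ⟨y, hy⟩) := by
      rw [hspec.entry, Finset.mul_sum]
      refine Finset.sum_congr rfl fun i _ => ?_
      show (v y) (Sum.inl i) * (u x) (Sum.inl i) = _
      have hu' : (u x) (Sum.inl i) = √A.card * (√|l i| * e i (Sum.inl ⟨x, hx⟩)) := dif_pos hx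
      have hv' : (v y) (Sum.inl i) =
        √B.card * (sg (l i) * (√|l i| * e i (Sum.inr ⟨y, hy⟩))) := dif_pos hy
      rw [hu', hv']
      have h3 : √|l i| * √|l i| = |l i| := Real.mul_self_sqrt (abs_nonneg _)
      calc _ = √A.card * √B.card * ((sg (l i) * (√|l i| * √|l i|)) * e i (Sum.inl ⟨x, hx⟩) *
            e i (Sum.inr ⟨y, hy⟩)) := by ring
        _ = _ := by rw [h3, hsga]
    have e2 : ∑ z : Z, inner ℝ ((u x) (Sum.inr z)) ((v y) (Sum.inr z)) =
        -(if a x = b y then θ else 0) := by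
      have h3 : ∀ z : Z, inner ℝ ((u x) (Sum.inr z)) ((v y) (Sum.inr z)) =
          if a x = z then (if b y = z then -θ else 0) else 0 := by
        intro z
        show (if b y = z then -√θ else 0) * (if a x = z then √θ else 0) = _
        split_ifs
        · rw [neg_mul, Real.mul_self_sqrt hθ0]
        · rw [mul_zero]
        · rw [zero_mul]
        · rw [zero_mul]
      rw [Finset.sum_congr rfl fun z _ => h3 z, Finset.sum_ite_eq, if_pos (Finset.mem_univ _)]
      by_cases hab : a x = b y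
      · rw [if_pos hab.symm, if_pos hab]
      · rw [if_neg (Ne.symm hab), if_neg hab, neg_zero]
    rw [e1, e2, hN]
    simp only [hc, hg, Sum.elim_inl, Sum.elim_inr]
    have hsA : √(A.card : ℝ) ≠ 0 := (Real.sqrt_pos.mpr hA0).ne'
    have hsB : √(B.card : ℝ) ≠ 0 := (Real.sqrt_pos.mpr hB0).ne'
    field_simp
    ring
  · have e1 : ∀ x ∈ A, ∀ hx : x ∈ A, ‖u x‖ ^ 2 =
        A.card * ∑ i, |l i| * e i (Sum.inl ⟨x, hx⟩) ^ 2 + θ := by
      intro x _ hx
      rw [EuclideanSpace.norm_sq_eq, Fintype.sum_sum_type]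
      congr 1
      · rw [Finset.mul_sum]
        refine Finset.sum_congr rfl fun i _ => ?_
        have hu' : (u x) (Sum.inl i) = √A.card * (√|l i| * e i (Sum.inl ⟨x, hx⟩)) := dif_pos hx
        rw [hu', Real.norm_eq_abs, sq_abs, mul_pow, mul_pow, Real.sq_sqrt hA0.le,
          Real.sq_sqrt (abs_nonneg _)]
      · have h3 : ∀ z : Z, ‖(u x) (Sum.inr z)‖ ^ 2 = if a x = z then θ else 0 := by
          intro z
          show ‖(if a x = z then √θ else 0)‖ ^ 2 = _
          split_ifs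
          · rw [Real.norm_eq_abs, sq_abs, Real.sq_sqrt hθ0]
          · simp
        rw [Finset.sum_congr rfl fun z _ => h3 z, Finset.sum_ite_eq, if_pos (Finset.mem_univ _)]
    have e2 : ∑ x ∈ A, ‖u x‖ ^ 2 = ∑ x : A, (A.card * ∑ i, |l i| * e i (Sum.inl x) ^ 2 + θ) := by
      rw [← Finset.sum_coe_sort A]
      exact Finset.sum_congr rfl fun x _ => e1 x.1 x.2 x.2
    rw [e2, Finset.sum_add_distrib, ← Finset.mul_sum, Finset.sum_const, Finset.card_univ,
      Fintype.card_coe, nsmul_eq_mul]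
    have e3 : ∑ x : A, ∑ i, |l i| * e i (Sum.inl x) ^ 2 ≤ ∑ i, |l i| := by
      rw [Finset.sum_comm]
      refine Finset.sum_le_sum fun i _ => ?_
      rw [← Finset.mul_sum]
      refine mul_le_of_le_one_right (abs_nonneg _) ?_
      rw [← hspec.norm i, Fintype.sum_sum_type]
      have : ∑ x : A, e i (Sum.inl x) ^ 2 = ∑ x : A, e i (Sum.inl x) * e i (Sum.inl x) :=
        Finset.sum_congr rfl fun x _ => sq _
      rw [this]
      have h4 : 0 ≤ ∑ y : B, e i (Sum.inr y) * e i (Sum.inr y) :=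
        Finset.sum_nonneg fun y _ => mul_self_nonneg _
      linarith
    unfold gam
    have e4 : (A.card : ℝ) * ∑ x : A, ∑ i, |l i| * e i (Sum.inl x) ^ 2 ≤
        A.card * (2 * (β + θ) * (1 + 2 * √t)) :=
      mul_le_mul_of_nonneg_left (e3.trans hnuc) hA0.le
    linarith
  · have e1 : ∀ y ∈ B, ∀ hy : y ∈ B, ‖v y‖ ^ 2 =
        B.card * ∑ i, |l i| * e i (Sum.inr ⟨y, hy⟩) ^ 2 + θ := by
      intro y _ hy
      rw [EuclideanSpace.norm_sq_eq, Fintype.sum_sum_type]
      congr 1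
      · rw [Finset.mul_sum]
        refine Finset.sum_congr rfl fun i _ => ?_
        have hv' : (v y) (Sum.inl i) =
          √B.card * (sg (l i) * (√|l i| * e i (Sum.inr ⟨y, hy⟩))) := dif_pos hy
        rw [hv', Real.norm_eq_abs, sq_abs, mul_pow, mul_pow, mul_pow, Real.sq_sqrt hB0.le,
          Real.sq_sqrt (abs_nonneg _), hsg2, one_mul]
      · have h3 : ∀ z : Z, ‖(v y) (Sum.inr z)‖ ^ 2 = if b y = z then θ else 0 := by
          intro z
          show ‖(if b y = z then -√θ else 0)‖ ^ 2 = _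
          split_ifs
          · rw [norm_neg, Real.norm_eq_abs, sq_abs, Real.sq_sqrt hθ0]
          · simp
        rw [Finset.sum_congr rfl fun z _ => h3 z, Finset.sum_ite_eq, if_pos (Finset.mem_univ _)]
    have e2 : ∑ y ∈ B, ‖v y‖ ^ 2 = ∑ y : B, (B.card * ∑ i, |l i| * e i (Sum.inr y) ^ 2 + θ) := by
      rw [← Finset.sum_coe_sort B]
      exact Finset.sum_congr rfl fun y _ => e1 y.1 y.2 y.2
    rw [e2, Finset.sum_add_distrib, ← Finset.mul_sum, Finset.sum_const, Finset.card_univ,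
      Fintype.card_coe, nsmul_eq_mul]
    have e3 : ∑ y : B, ∑ i, |l i| * e i (Sum.inr y) ^ 2 ≤ ∑ i, |l i| := by
      rw [Finset.sum_comm]
      refine Finset.sum_le_sum fun i _ => ?_
      rw [← Finset.mul_sum]
      refine mul_le_of_le_one_right (abs_nonneg _) ?_
      rw [← hspec.norm i, Fintype.sum_sum_type]
      have : ∑ y : B, e i (Sum.inr y) ^ 2 = ∑ y : B, e i (Sum.inr y) * e i (Sum.inr y) :=
        Finset.sum_congr rfl fun x _ => sq _
      rw [this]
      have h4 : 0 ≤ ∑ x : A, e i (Sum.inl x) * e i (Sum.inl x) :=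
        Finset.sum_nonneg fun y _ => mul_self_nonneg _
      linarith
    unfold gam
    have e4 : (B.card : ℝ) * ∑ y : B, ∑ i, |l i| * e i (Sum.inr y) ^ 2 ≤
        B.card * (2 * (β + θ) * (1 + 2 * √t)) :=
      mul_le_mul_of_nonneg_left (e3.trans hnuc) hB0.le
    linarith

end Pool.Agent.H711.IN
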