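import Pool.Agent.H711.IN.Round
import Pool.Agent.H711.IN.Vec
import Pool.Graph.R_seed8.R533.VC.Err

/-!
Large monochromatic rectangles.
-/

set_option autoImplicit false

namespace Pool.Agent.H711.IN

open Finset Pool.Agent.H630R2.LR Pool.Agent.R533.VC

theorem sum_ind {X Y : Type} (F : X → Y → Bool) (σ : Bool) (A : Finset X) (B : Finset Y) :
    ∑ x ∈ A, ∑ y ∈ B, (if F x y = σ then (1 : ℝ) else 0) =
      ((∑ x ∈ A, (B.filter fun y => F x y = σ).card : ℕ) : ℝ) := by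
  push_cast
  refine Finset.sum_congr rfl fun x _ => ?_
  rw [Finset.card_filter]
  push_cast
  rfl

theorem sum_ind' {X Y : Type} (F : X → Y → Bool) (σ : Bool) (A : Finset X) (B : Finset Y) :
    ∑ x ∈ A, ∑ y ∈ B, (if F x y = σ then (0 : ℝ) else 1) =
      ((∑ x ∈ A, (B.filter fun y => F x y ≠ σ).card : ℕ) : ℝ) := by
  push_cast
  refine Finset.sum_congr rfl fun x _ => ?_
  rw [Finset.card_filter]
  push_cast
  refine Finset.sum_congr rfl fun y _ => ?_
  by_cases h : F x y = σ <;> simp [h]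

theorem biased {X Y K : Type} [Fintype K] (F : X → Y → Bool) (A : Finset X) (B : Finset Y)
    (hA : A.Nonempty) (hB : B.Nonempty) (R : ℝ) (hR : 1 ≤ R) (u : X → EuclideanSpace ℝ K)
    (v : Y → EuclideanSpace ℝ K) (hu : ∀ x ∈ A, ‖u x‖ ^ 2 ≤ R) (hv : ∀ y ∈ B, ‖v y‖ ^ 2 ≤ R)
    (τ : ℝ) (σ : Bool) (hhi : ∀ x ∈ A, ∀ y ∈ B, F x y = σ → τ + 1 ≤ inner ℝ (u x) (v y))
    (hlo : ∀ x ∈ A, ∀ y ∈ B, F x y ≠ σ → inner ℝ (u x) (v y) ≤ τ) (M : ℕ) (hM : 1 ≤ M) (k : ℕ)
    (hk : 4 * (M : ℝ) ≤ (1 + 1 / (4 * R)) ^ k)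
    (hmaj : A.card * B.card ≤ 2 * ∑ x ∈ A, (B.filter fun y => F x y = σ).card) :
    ∃ A' ⊆ A, ∃ B' ⊆ B, A.card * B.card ≤ 4 * 8 ^ k * (A'.card * B'.card) ∧
      M * ∑ x ∈ A', (B'.filter fun y => F x y ≠ σ).card ≤ A'.card * B'.card ∧
      0 < A'.card * B'.card := by
  classical
  have hR0 : 0 < R := by linarith
  have hAB : 0 < A.card * B.card := Nat.mul_pos hA.card_pos hB.card_pos
  by_cases hbad : ∃ x ∈ A, ∃ y ∈ B, F x y ≠ σ
  swap
  · push Not at hbad
    refine ⟨A, subset_rfl, B, subset_rfl, ?_, ?_, hAB⟩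
    · have : 1 ≤ 4 * 8 ^ k := Nat.one_le_iff_ne_zero.mpr (by positivity)
      exact Nat.le_mul_of_pos_left _ this
    · have h0 : ∑ x ∈ A, (B.filter fun y => F x y ≠ σ).card = 0 := by
        refine Finset.sum_eq_zero fun x hx => ?_
        rw [Finset.card_eq_zero, Finset.filter_eq_empty_iff]
        intro y hy h
        exact h (hbad x hx y hy)
      rw [h0]
      omega
  obtain ⟨x0, hx0, y0, hy0, hF0⟩ := hbad
  have hgood : ∃ x ∈ A, ∃ y ∈ B, F x y = σ := by
    by_contra hcon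
    push Not at hcon
    have h0 : ∑ x ∈ A, (B.filter fun y => F x y = σ).card = 0 := by
      refine Finset.sum_eq_zero fun x hx => ?_
      rw [Finset.card_eq_zero, Finset.filter_eq_empty_iff]
      intro y hy
      exact hcon x hx y hy
    omega
  obtain ⟨x1, hx1, y1, hy1, hF1⟩ := hgood
  have hin : ∀ x ∈ A, ∀ y ∈ B, |inner ℝ (u x) (v y)| ≤ R := by
    intro x hx y hy
    refine (abs_real_inner_le_norm _ _).trans ?_
    have h1 := hu x hx
    have h2 := hv y hy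
    nlinarith [sq_nonneg (‖u x‖ - ‖v y‖)]
  have hτ1 : -R ≤ τ := (neg_le_of_abs_le (hin x0 hx0 y0 hy0)).trans (hlo x0 hx0 y0 hy0 hF0)
  have hτ2 : τ + 1 ≤ R := (hhi x1 hx1 y1 hy1 hF1).trans (le_of_abs_le (hin x1 hx1 y1 hy1))
  set p := kern R (τ + 1) with hp
  set b := kern R τ with hb
  have hb0 : 0.14 ≤ b := kern_low R hR0 hτ1
  have hp0 : 0.14 ≤ p := kern_low R hR0 (by linarith)
  have hgap : (1 + 1 / (4 * R)) * b ≤ p := kern_gap R hR0 τ hτ1 hτ2
  obtain ⟨u', v', hu', hv', huv⟩ := extend A B R u v hu hv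
  set c : X → Y → ℝ := fun x y => (if F x y = σ then 1 else 0) - M * (if F x y = σ then 0 else 1)
    with hc
  obtain ⟨P, Q, hP, hQ, h1⟩ := step_pow A B R hR0 u' v' hu' hv' k c
  obtain ⟨A', hA', B', hB', h2⟩ := vertex A B c P Q hP hQ
  have hM0 : (0 : ℝ) ≤ M := Nat.cast_nonneg _
  set Ng := ∑ x ∈ A, ∑ y ∈ B, (if F x y = σ then (1 : ℝ) else 0) with hNg
  set Nb := ∑ x ∈ A, ∑ y ∈ B, (if F x y = σ then (0 : ℝ) else 1) with hNb
  have htot : Ng + Nb = A.card * B.card := by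
    rw [hNg, hNb, ← Finset.sum_add_distrib]
    have : ∀ x ∈ A, ∑ y ∈ B, (if F x y = σ then (1 : ℝ) else 0) +
        ∑ y ∈ B, (if F x y = σ then (0 : ℝ) else 1) = B.card := by
      intro x _
      rw [← Finset.sum_add_distrib]
      have : ∀ y ∈ B, ((if F x y = σ then (1 : ℝ) else 0) + if F x y = σ then (0 : ℝ) else 1) = 1 := by
        intro y _
        split_ifs <;> norm_num
      rw [Finset.sum_congr rfl this]
      simp
    rw [Finset.sum_congr rfl this]
    simp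
  have hNb0 : 0 ≤ Nb := Finset.sum_nonneg fun x _ => Finset.sum_nonneg fun y _ => by
    split_ifs <;> norm_num
  have hNgm : (A.card * B.card : ℝ) ≤ 2 * Ng := by
    rw [hNg, sum_ind]
    exact_mod_cast hmaj
  have hlow : p ^ k * Ng - M * b ^ k * Nb ≤
      ∑ x ∈ A, ∑ y ∈ B, c x y * kern R (inner ℝ (u' x) (v' y)) ^ k := by
    have e1 : p ^ k * Ng - M * b ^ k * Nb = ∑ x ∈ A, ∑ y ∈ B,
        (p ^ k * (if F x y = σ then (1 : ℝ) else 0) -
          M * b ^ k * (if F x y = σ then (0 : ℝ) else 1)) := by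
      rw [hNg, hNb, Finset.mul_sum, Finset.mul_sum, ← Finset.sum_sub_distrib]
      refine Finset.sum_congr rfl fun x _ => ?_
      rw [Finset.mul_sum, Finset.mul_sum, ← Finset.sum_sub_distrib]
    rw [e1]
    refine Finset.sum_le_sum fun x hx => Finset.sum_le_sum fun y hy => ?_
    rw [huv, hc]
    simp only
    by_cases hF : F x y = σ
    · rw [if_pos hF, if_pos hF]
      have h3 : p ≤ kern R (inner ℝ (u x) (v y)) := kern_mono R hR0 (hhi x hx y hy hF)
      have h4 := pow_le_pow_left₀ (by linarith) h3 k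
      linarith
    · rw [if_neg hF, if_neg hF]
      have h3 : kern R (inner ℝ (u x) (v y)) ≤ b := kern_mono R hR0 (hlo x hx y hy hF)
      have h5 : 0.14 ≤ kern R (inner ℝ (u x) (v y)) :=
        kern_low R hR0 (neg_le_of_abs_le (hin x hx y hy))
      have h4 := mul_le_mul_of_nonneg_left (pow_le_pow_left₀ (by linarith) h3 k) hM0
      linarith
  have hpk : 4 * M * b ^ k ≤ p ^ k := by
    have h3 := pow_le_pow_left₀ (by positivity) hgap k
    rw [mul_pow] at h3
    have h4 : 0 ≤ b ^ k := pow_nonneg (by linarith) k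
    have h5 := mul_le_mul_of_nonneg_right hk h4
    linarith
  have hp8 : (1 / 8 : ℝ) ^ k ≤ p ^ k := pow_le_pow_left₀ (by norm_num) (by linarith) k
  have h8 : (0 : ℝ) < (1 / 8 : ℝ) ^ k := by positivity
  have hABR : (0 : ℝ) < A.card * B.card := by exact_mod_cast hAB
  have hmain : (1 / 8 : ℝ) ^ k * (A.card * B.card) / 4 ≤ ∑ x ∈ A', ∑ y ∈ B', c x y := by
    have h3 : M * b ^ k * Nb ≤ p ^ k / 4 * (A.card * B.card) := by
      refine mul_le_mul (by linarith) (by linarith) hNb0 (by positivity)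
    have h4 : p ^ k * (A.card * B.card) ≤ p ^ k * (2 * Ng) :=
      mul_le_mul_of_nonneg_left hNgm (by positivity)
    have h5 : (1 / 8 : ℝ) ^ k * (A.card * B.card) ≤ p ^ k * (A.card * B.card) :=
      mul_le_mul_of_nonneg_right hp8 hABR.le
    linarith
  have hsplit : ∑ x ∈ A', ∑ y ∈ B', c x y =
      ∑ x ∈ A', ∑ y ∈ B', (if F x y = σ then (1 : ℝ) else 0) -
        M * ∑ x ∈ A', ∑ y ∈ B', (if F x y = σ then (0 : ℝ) else 1) := by
    rw [hc, Finset.mul_sum, ← Finset.sum_sub_distrib]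
    refine Finset.sum_congr rfl fun x _ => ?_
    rw [Finset.mul_sum, ← Finset.sum_sub_distrib]
  have htot' : ∑ x ∈ A', ∑ y ∈ B', (if F x y = σ then (1 : ℝ) else 0) ≤ A'.card * B'.card := by
    calc ∑ x ∈ A', ∑ y ∈ B', (if F x y = σ then (1 : ℝ) else 0) ≤ ∑ x ∈ A', ∑ y ∈ B', (1 : ℝ) :=
          Finset.sum_le_sum fun x _ => Finset.sum_le_sum fun y _ => by split_ifs <;> norm_num
      _ = _ := by simp
  have hb' : 0 ≤ ∑ x ∈ A', ∑ y ∈ B', (if F x y = σ then (0 : ℝ) else 1) :=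
    Finset.sum_nonneg fun x _ => Finset.sum_nonneg fun y _ => by split_ifs <;> norm_num
  rw [hsplit] at hmain
  have hpos : 0 < (1 / 8 : ℝ) ^ k * (A.card * B.card) / 4 := by positivity
  refine ⟨A', hA', B', hB', ?_, ?_, ?_⟩
  · have h3 : (1 / 8 : ℝ) ^ k * (A.card * B.card) / 4 ≤ A'.card * B'.card := by
      have := mul_nonneg hM0 hb'
      linarith
    have h4 : (A.card * B.card : ℝ) ≤ 4 * 8 ^ k * (A'.card * B'.card) := by
      have h5 : (A.card * B.card : ℝ) = 4 * 8 ^ k * ((1 / 8 : ℝ) ^ k * (A.card * B.card) / 4) := by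
        have h6 : (8 : ℝ) ^ k * (1 / 8 : ℝ) ^ k = 1 := by
          rw [← mul_pow]
          norm_num
        calc (A.card * B.card : ℝ) = (8 ^ k * (1 / 8 : ℝ) ^ k) * (A.card * B.card) := by
              rw [h6, one_mul]
          _ = _ := by ring
      rw [h5]
      exact mul_le_mul_of_nonneg_left h3 (by positivity)
    exact_mod_cast h4
  · have h3 : (M : ℝ) * ∑ x ∈ A', ∑ y ∈ B', (if F x y = σ then (0 : ℝ) else 1) ≤
        A'.card * B'.card := by linarith
    rw [sum_ind'] at h3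
    exact_mod_cast h3
  · have h3 : (0 : ℝ) < A'.card * B'.card := by
      have := mul_nonneg hM0 hb'
      linarith
    exact_mod_cast h3

end Pool.Agent.H711.IN
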