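import Pool.Agent.H711.IN.VC

/-!
The final bounds.
-/

set_option autoImplicit false

namespace Pool.Agent.H711.IN

open Finset Pool.Agent.H630R2.LR Pool.Agent.R533.VC

theorem short_of_negLe {X Y Z : Type} [Fintype Z] (S : Z → Z → ℝ)
    (hS : ∀ z z', S z z' = S z' z) (β θ : ℝ) (hβ0 : 0 ≤ β) (hθ0 : 0 ≤ θ)
    (hβ : ∀ z z', |S z z'| ≤ β) (t : ℕ) (hneg : NegLe S θ t) (a : X → Z) (b : Y → Z) :
    Short (fun x y => S (a x) (b y)) (gam β θ t) := fun A B hA hB =>
  vectors S hS β θ hβ0 hθ0 hβ t hneg a b A B hA hB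

/-- Both protocols. -/
theorem both {X Y Z : Type} [Fintype X] [Fintype Y] [Fintype Z] (F : X → Y → Bool)
    (S : Z → Z → ℝ) (hS : ∀ z z', S z z' = S z' z) (β θ : ℝ) (hβ0 : 0 ≤ β) (hθ0 : 0 ≤ θ)
    (hβ : ∀ z z', |S z z'| ≤ β) (t : ℕ) (hneg : NegLe S θ t) (a : X → Z) (b : Y → Z) (τ : ℝ)
    (σ : Bool) (hF : Sep F (fun x y => S (a x) (b y)) τ σ) :
    (∃ c : ℕ, Proto F c ∧
      (c : ℝ) ≤ 1800 * (β + θ) * (√t + 1) * (Real.logb 2 (comm F).rank + 1) ^ 2) ∧
    (∃ c : ℕ, Proto F c ∧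
      (c : ℝ) ≤ 140 * (β + θ) ^ 2 * (t + 1) * Real.logb 2 ((comm F).rank + 1 : ℝ)) := by
  have hL := logb_nonneg (comm F).rank
  have hL' : 0 ≤ Real.logb 2 ((comm F).rank + 1 : ℝ) := by
    have := logb_nonneg ((comm F).rank + 1)
    push_cast at this
    exact this
  have hst : 0 ≤ √(t : ℝ) := Real.sqrt_nonneg _
  -- constant functions
  by_cases hconst : (∀ x y, F x y = σ) ∨ (∀ x y, F x y ≠ σ)
  · have h0 : Proto F 0 := by
      rcases hconst with h | h
      · exact Proto.const F σ h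
      · refine Proto.const F (!σ) fun x y => ?_
        have := h x y
        revert this
        cases σ <;> cases F x y <;> simp
    refine ⟨⟨0, h0, ?_⟩, ⟨0, h0, ?_⟩⟩
    · push_cast; positivity
    · push_cast; positivity
  push Not at hconst
  obtain ⟨⟨x0, y0, h0⟩, ⟨x1, y1, h1⟩⟩ := hconst
  have hb : 1 ≤ 2 * β := by
    have e1 := (hF x1 y1).1 h1
    have e2 := (hF x0 y0).2 h0
    have e3 := le_of_abs_le (hβ (a x1) (b y1))
    have e4 := neg_le_of_abs_le (hβ (a x0) (b y0))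
    simp only at e1 e2
    linarith
  have hshort := short_of_negLe (X := X) (Y := Y) S hS β θ hβ0 hθ0 hβ t hneg a b
  have hγ0 := gam_nonneg hβ0 hθ0 t
  have hbt : 0 ≤ β + θ := by linarith
  have hr1 : 1 ≤ (comm F).rank ∨ (comm F).rank = 0 := by omega
  constructor
  · obtain ⟨c, hc, hcc⟩ := proto F _ _ hγ0 hshort τ σ hF
    refine ⟨c, hc, hcc.trans ?_⟩
    refine mul_le_mul_of_nonneg_right ?_ (sq_nonneg _)
    unfold gam
    have h3 : 0 ≤ (β + θ) * √t := mul_nonneg hbt hst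
    have e : 224 * (2 * (2 * (β + θ) * (1 + 2 * √t) + θ) + 1) =
        896 * (β + θ) + 1792 * ((β + θ) * √t) + 448 * θ + 224 := by ring
    have e' : 1800 * (β + θ) * (√t + 1) = 1800 * (β + θ) + 1800 * ((β + θ) * √t) := by ring
    rw [e, e']
    linarith
  · obtain ⟨c, hc, hcc⟩ := proto_vc F _ _ hγ0 hshort τ σ hF
    refine ⟨c, hc, hcc.trans ?_⟩
    have h4 : gam β θ t ^ 2 ≤ 32 * (β + θ) ^ 2 * (t + 1) := by
      have h5 : gam β θ t ≤ 4 * (β + θ) * (√t + 1) := by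
        unfold gam
        have h3 : 0 ≤ (β + θ) * √t := mul_nonneg hbt hst
        nlinarith
      calc gam β θ t ^ 2 ≤ (4 * (β + θ) * (√t + 1)) ^ 2 := pow_le_pow_left₀ hγ0 h5 2
        _ = 16 * (β + θ) ^ 2 * (√t + 1) ^ 2 := by ring
        _ ≤ 16 * (β + θ) ^ 2 * (2 * (t + 1)) := by
            refine mul_le_mul_of_nonneg_left ?_ (by positivity)
            have h6 : √(t : ℝ) ^ 2 = t := Real.sq_sqrt (Nat.cast_nonneg _)
            nlinarith [sq_nonneg (√(t : ℝ) - 1)]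
        _ = 32 * (β + θ) ^ 2 * (t + 1) := by ring
    have h5 : 1 ≤ (comm F).rank := by
      by_contra hcon
      have hr0 : (comm F).rank = 0 := by omega
      obtain ⟨T, hT, hTF⟩ := exists_trace F
      obtain ⟨T', hT', hTF'⟩ := exists_trace (fun y x => F x y)
      rw [hr0, Nat.le_zero, Finset.card_eq_zero] at hT
      rw [comm_swap, Matrix.rank_transpose, hr0, Nat.le_zero, Finset.card_eq_zero] at hT'
      have e1 := hTF y0 y1 (by rw [hT]; simp) x0
      have e2 := hTF' x0 x1 (by rw [hT']; simp) y1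
      rw [e1, e2] at h0
      exact h0 h1
    have h6 : 1 ≤ Real.logb 2 ((comm F).rank + 1 : ℝ) := by
      rw [Real.le_logb_iff_rpow_le (by norm_num) (by positivity)]
      have : (1 : ℝ) ≤ (comm F).rank := by exact_mod_cast h5
      norm_num
      linarith
    have h7 : 1 / 4 ≤ (β + θ) ^ 2 := by nlinarith
    have ht0 : (0 : ℝ) ≤ t := Nat.cast_nonneg _
    have h8 : 1 / 4 ≤ (β + θ) ^ 2 * (t + 1) := by nlinarith
    have h9 : 2 ≤ 8 * ((β + θ) ^ 2 * (t + 1)) * Real.logb 2 ((comm F).rank + 1 : ℝ) := by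
      nlinarith
    have h10 := mul_le_mul_of_nonneg_right h4 hL'
    nlinarith

end Pool.Agent.H711.IN
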