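import Mathlib

/-!
Random products of functions with values in `[0,1]` from vectors with small inner products
(Gaussian rounding by sines).
-/

set_option autoImplicit false

namespace Pool.Agent.H711.IN

open MeasureTheory ProbabilityTheory Finset

section
variable {E : Type*} [NormedAddCommGroup E] [InnerProductSpace ℝ E] [FiniteDimensional ℝ E]
  [MeasurableSpace E] [BorelSpace E]

theorem int_exp (w : E) : ∫ g, Complex.exp ((inner ℝ g w : ℝ) * Complex.I) ∂(stdGaussian E) =
    ((Real.exp (-‖w‖ ^ 2 / 2) : ℝ) : ℂ) := by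
  have h := charFun_stdGaussian w
  rw [charFun_apply] at h
  rw [h]
  push_cast
  rfl

theorem integrable_exp (w : E) :
    Integrable (fun g : E => Complex.exp ((inner ℝ g w : ℝ) * Complex.I)) (stdGaussian E) := by
  refine Integrable.of_bound (C := 1) ?_ ?_
  · exact Continuous.aestronglyMeasurable (by fun_prop)
  · exact Filter.Eventually.of_forall fun g => by
      rw [Complex.norm_exp_ofReal_mul_I]

theorem int_cos (w : E) :
    ∫ g, Real.cos (inner ℝ g w) ∂(stdGaussian E) = Real.exp (-‖w‖ ^ 2 / 2) := by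
  have h := integral_re (integrable_exp w)
  rw [int_exp] at h
  have h2 : ∀ g : E, RCLike.re (Complex.exp ((inner ℝ g w : ℝ) * Complex.I)) =
      Real.cos (inner ℝ g w) := fun g => Complex.exp_ofReal_mul_I_re _
  simp only [h2] at h
  rw [h]
  exact Complex.ofReal_re _

theorem int_sin (w : E) : ∫ g, Real.sin (inner ℝ g w) ∂(stdGaussian E) = 0 := by
  have h := integral_im (integrable_exp w)
  rw [int_exp] at h
  have h2 : ∀ g : E, RCLike.im (Complex.exp ((inner ℝ g w : ℝ) * Complex.I)) =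
      Real.sin (inner ℝ g w) := fun g => Complex.exp_ofReal_mul_I_im _
  simp only [h2] at h
  rw [h]
  exact Complex.ofReal_im (Real.exp (-‖w‖ ^ 2 / 2))

theorem integrable_cos (w : E) :
    Integrable (fun g : E => Real.cos (inner ℝ g w)) (stdGaussian E) := by
  refine Integrable.of_bound (C := 1) ?_ ?_
  · exact Continuous.aestronglyMeasurable (by fun_prop)
  · exact Filter.Eventually.of_forall fun g => Real.abs_cos_le_one _

theorem integrable_sin (w : E) :
    Integrable (fun g : E => Real.sin (inner ℝ g w)) (stdGaussian E) := by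
  refine Integrable.of_bound (C := 1) ?_ ?_
  · exact Continuous.aestronglyMeasurable (by fun_prop)
  · exact Filter.Eventually.of_forall fun g => Real.abs_sin_le_one _

/-- The kernel. -/
noncomputable def kern (R z : ℝ) : ℝ := (1 + Real.exp (-1) * Real.sinh (z / R)) / 4

/-- The value of the product at a pair of vectors of length `√R`. -/
theorem int_kern (R : ℝ) (hR : 0 < R) (u v : E) (hu : ‖u‖ ^ 2 = R) (hv : ‖v‖ ^ 2 = R) :
    Integrable (fun g : E => ((1 + Real.sin (inner ℝ g ((√R)⁻¹ • u))) / 2) *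
      ((1 + Real.sin (inner ℝ g ((√R)⁻¹ • v))) / 2)) (stdGaussian E) ∧
    ∫ g, ((1 + Real.sin (inner ℝ g ((√R)⁻¹ • u))) / 2) *
      ((1 + Real.sin (inner ℝ g ((√R)⁻¹ • v))) / 2) ∂(stdGaussian E) =
      kern R (inner ℝ u v) := by
  set a : E := (√R)⁻¹ • u with ha
  set b : E := (√R)⁻¹ • v with hb
  have hs : √R ^ 2 = R := Real.sq_sqrt hR.le
  have hs0 : √R ≠ 0 := (Real.sqrt_pos.mpr hR).ne'
  have hR0 : R ≠ 0 := hR.ne'
  have hexp : ∀ g : E, ((1 + Real.sin (inner ℝ g a)) / 2) * ((1 + Real.sin (inner ℝ g b)) / 2) =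
      1 / 4 + 1 / 4 * Real.sin (inner ℝ g a) + 1 / 4 * Real.sin (inner ℝ g b) +
        1 / 8 * Real.cos (inner ℝ g (a - b)) - 1 / 8 * Real.cos (inner ℝ g (a + b)) := by
    intro g
    rw [inner_sub_right, inner_add_right, Real.cos_sub, Real.cos_add]
    ring
  have hc : Integrable (fun _ : E => (1 / 4 : ℝ)) (stdGaussian E) := integrable_const _
  have i1 := (integrable_sin a).const_mul (1 / 4)
  have i2 := (integrable_sin b).const_mul (1 / 4)
  have i3 := (integrable_cos (a - b)).const_mul (1 / 8)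
  have i4 := (integrable_cos (a + b)).const_mul (1 / 8)
  have hna : ‖a‖ ^ 2 = 1 := by
    rw [ha, norm_smul, mul_pow, hu, norm_inv, inv_pow, Real.norm_eq_abs, sq_abs, hs,
      inv_mul_cancel₀ hR0]
  have hnb : ‖b‖ ^ 2 = 1 := by
    rw [hb, norm_smul, mul_pow, hv, norm_inv, inv_pow, Real.norm_eq_abs, sq_abs, hs,
      inv_mul_cancel₀ hR0]
  have hab : inner ℝ a b = inner ℝ u v / R := by
    rw [ha, hb, real_inner_smul_left, real_inner_smul_right, ← mul_assoc, ← sq, inv_pow, hs]
    field_simp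
  have hm : ‖a - b‖ ^ 2 = 2 - 2 * (inner ℝ u v / R) := by
    rw [norm_sub_sq_real, hna, hnb, hab]; ring
  have hp : ‖a + b‖ ^ 2 = 2 + 2 * (inner ℝ u v / R) := by
    rw [norm_add_sq_real, hna, hnb, hab]; ring
  have j1 : Integrable (fun g : E => 1 / 4 + 1 / 4 * Real.sin (inner ℝ g a)) (stdGaussian E) :=
    hc.add i1
  have j2 : Integrable (fun g : E => 1 / 4 + 1 / 4 * Real.sin (inner ℝ g a) +
    1 / 4 * Real.sin (inner ℝ g b)) (stdGaussian E) := j1.add i2
  have j3 : Integrable (fun g : E => 1 / 4 + 1 / 4 * Real.sin (inner ℝ g a) +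
    1 / 4 * Real.sin (inner ℝ g b) + 1 / 8 * Real.cos (inner ℝ g (a - b))) (stdGaussian E) :=
    j2.add i3
  constructor
  · refine (j3.sub i4).congr ?_
    exact Filter.Eventually.of_forall fun g => (hexp g).symm
  · rw [integral_congr_ae (Filter.Eventually.of_forall hexp)]
    rw [integral_sub j3 i4, integral_add j2 i3,
      integral_add j1 i2, integral_add hc i1, integral_const_mul, integral_const_mul,
      integral_const_mul, integral_const_mul, int_sin, int_sin, int_cos, int_cos, hm, hp]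
    rw [integral_const]
    unfold kern
    rw [Real.sinh_eq]
    have e1 : -(2 - 2 * (inner ℝ u v / R)) / 2 = -1 + inner ℝ u v / R := by ring
    have e2 : -(2 + 2 * (inner ℝ u v / R)) / 2 = -1 + -(inner ℝ u v / R) := by ring
    rw [e1, e2, Real.exp_add, Real.exp_add]
    simp
    ring

end

/-- One step of the rounding. -/
theorem step {X Y K : Type} [Fintype K] (A : Finset X) (B : Finset Y) (R : ℝ) (hR : 0 < R)
    (u : X → EuclideanSpace ℝ K) (v : Y → EuclideanSpace ℝ K) (hu : ∀ x ∈ A, ‖u x‖ ^ 2 = R)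
    (hv : ∀ y ∈ B, ‖v y‖ ^ 2 = R) (c : X → Y → ℝ) :
    ∃ (p : X → ℝ) (q : Y → ℝ), (∀ x, 0 ≤ p x ∧ p x ≤ 1) ∧ (∀ y, 0 ≤ q y ∧ q y ≤ 1) ∧
      ∑ x ∈ A, ∑ y ∈ B, c x y * kern R (inner ℝ (u x) (v y)) ≤
        ∑ x ∈ A, ∑ y ∈ B, c x y * (p x * q y) := by
  set P : EuclideanSpace ℝ K → X → ℝ := fun g x => (1 + Real.sin (inner ℝ g ((√R)⁻¹ • u x))) / 2
    with hP
  set Q : EuclideanSpace ℝ K → Y → ℝ := fun g y => (1 + Real.sin (inner ℝ g ((√R)⁻¹ • v y))) / 2
    with hQ
  have hint : ∀ x ∈ A, ∀ y ∈ B, Integrable (fun g => P g x * Q g y) (stdGaussian _) ∧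
      ∫ g, P g x * Q g y ∂(stdGaussian _) = kern R (inner ℝ (u x) (v y)) :=
    fun x hx y hy => int_kern R hR (u x) (v y) (hu x hx) (hv y hy)
  have hI : Integrable (fun g => ∑ x ∈ A, ∑ y ∈ B, c x y * (P g x * Q g y)) (stdGaussian _) :=
    integrable_finsetSum _ fun x hx => integrable_finsetSum _ fun y hy =>
      (hint x hx y hy).1.const_mul _
  obtain ⟨g, hg⟩ := exists_integral_le hI
  refine ⟨P g, Q g, ?_, ?_, le_trans (le_of_eq ?_) hg⟩
  · intro x
    have h1 := Real.neg_one_le_sin (inner ℝ g ((√R)⁻¹ • u x))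
    have h2 := Real.sin_le_one (inner ℝ g ((√R)⁻¹ • u x))
    rw [hP]
    constructor <;> simp only <;> linarith
  · intro y
    have h1 := Real.neg_one_le_sin (inner ℝ g ((√R)⁻¹ • v y))
    have h2 := Real.sin_le_one (inner ℝ g ((√R)⁻¹ • v y))
    rw [hQ]
    constructor <;> simp only <;> linarith
  · rw [integral_finsetSum _ fun x hx => integrable_finsetSum _ fun y hy =>
      (hint x hx y hy).1.const_mul _]
    refine Finset.sum_congr rfl fun x hx => ?_
    rw [integral_finsetSum _ fun y hy => (hint x hx y hy).1.const_mul _]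
    refine Finset.sum_congr rfl fun y hy => ?_
    rw [integral_const_mul, (hint x hx y hy).2]

end Pool.Agent.H711.IN
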