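import Pool.Agent.H711.IN.Biased
import Pool.Graph.R_seed8.R533.VC.Main

/-!
Protocols from vectors which are short on average.
-/

set_option autoImplicit false

namespace Pool.Agent.H711.IN

open Finset Pool.Agent.H630R2.LR Pool.Agent.R533.VC

/-- Vectors with the inner products `S x y`, short on average, in every rectangle. -/
def Short {X Y : Type} (S : X → Y → ℝ) (γ : ℝ) : Prop :=
  ∀ (A : Finset X) (B : Finset Y), A.Nonempty → B.Nonempty →
    ∃ (K : Type) (_ : Fintype K) (u : X → EuclideanSpace ℝ K) (v : Y → EuclideanSpace ℝ K),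
      (∀ x ∈ A, ∀ y ∈ B, inner ℝ (u x) (v y) = S x y) ∧
      ∑ x ∈ A, ‖u x‖ ^ 2 ≤ γ * A.card ∧ ∑ y ∈ B, ‖v y‖ ^ 2 ≤ γ * B.card

/-- `S` is at least `τ + 1` on the entries of `F` equal to `σ` and at most `τ` on the others. -/
def Sep {X Y : Type} (F : X → Y → Bool) (S : X → Y → ℝ) (τ : ℝ) (σ : Bool) : Prop :=
  ∀ x y, (F x y = σ → τ + 1 ≤ S x y) ∧ (F x y ≠ σ → S x y ≤ τ)

theorem half {X K : Type} [Fintype K] (A : Finset X) (u : X → EuclideanSpace ℝ K) (γ : ℝ)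
    (hγ : 0 ≤ γ) (h : ∑ x ∈ A, ‖u x‖ ^ 2 ≤ γ * A.card) [DecidablePred fun x => ‖u x‖ ^ 2 ≤ 2 * γ + 1] :
    A.card ≤ 2 * (A.filter fun x => ‖u x‖ ^ 2 ≤ 2 * γ + 1).card := by
  classical
  have h1 : ((A.filter fun x => ¬ ‖u x‖ ^ 2 ≤ 2 * γ + 1).card : ℝ) * (2 * γ + 1) ≤ γ * A.card := by
    refine le_trans ?_ h
    rw [← nsmul_eq_mul, ← Finset.sum_const]
    refine le_trans (Finset.sum_le_sum fun x hx => ?_)
      (Finset.sum_le_sum_of_subset_of_nonneg (Finset.filter_subset _ A) fun x _ _ => sq_nonneg _)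
    exact (not_le.mp (Finset.mem_filter.mp hx).2).le
  have h2 := Finset.card_filter_add_card_filter_not (s := A) (fun x => ‖u x‖ ^ 2 ≤ 2 * γ + 1)
  have h3 : ((A.filter fun x => ‖u x‖ ^ 2 ≤ 2 * γ + 1).card : ℝ) +
      (A.filter fun x => ¬ ‖u x‖ ^ 2 ≤ 2 * γ + 1).card = A.card := by exact_mod_cast h2
  set a := ((A.filter fun x => ‖u x‖ ^ 2 ≤ 2 * γ + 1).card : ℝ)
  set b := ((A.filter fun x => ¬ ‖u x‖ ^ 2 ≤ 2 * γ + 1).card : ℝ)
  have hb : 0 ≤ b := Nat.cast_nonneg _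
  have ha : 0 ≤ a := Nat.cast_nonneg _
  have h4 : (A.card : ℝ) ≤ 2 * a := by
    rw [← h3] at h1 ⊢
    nlinarith
  have h5 : (A.card : ℝ) ≤ ((2 * (A.filter fun x => ‖u x‖ ^ 2 ≤ 2 * γ + 1).card : ℕ) : ℝ) := by
    push_cast
    exact h4
  exact_mod_cast h5

theorem rich {X Y : Type} [Fintype X] [Fintype Y] (F : X → Y → Bool) (S : X → Y → ℝ) (γ : ℝ)
    (hγ : 0 ≤ γ) (hS : Short S γ) (τ : ℝ) (σ : Bool) (hF : Sep F S τ σ) (k : ℕ)
    (hk : 16 * ((comm F).rank + 1 : ℝ) ≤ (1 + 1 / (4 * (2 * γ + 1))) ^ k) :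
    Rich F (64 * 8 ^ k) := by
  classical
  intro A B hA hB
  obtain ⟨K, _, u, v, huv, hu, hv⟩ := hS A B hA hB
  set A₁ := A.filter fun x => ‖u x‖ ^ 2 ≤ 2 * γ + 1 with hA₁
  set B₁ := B.filter fun y => ‖v y‖ ^ 2 ≤ 2 * γ + 1 with hB₁
  have hA₁c : A.card ≤ 2 * A₁.card := half A u γ hγ hu
  have hB₁c : B.card ≤ 2 * B₁.card := half B v γ hγ hv
  have hA₁0 : A₁.Nonempty := by
    rw [← Finset.card_pos]
    have := hA.card_pos
    omega
  have hB₁0 : B₁.Nonempty := by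
    rw [← Finset.card_pos]
    have := hB.card_pos
    omega
  have hA₁s : A₁ ⊆ A := Finset.filter_subset _ _
  have hB₁s : B₁ ⊆ B := Finset.filter_subset _ _
  set M := 4 * ((comm F).rank + 1) with hM
  have hM1 : 1 ≤ M := by omega
  have hkM : 4 * (M : ℝ) ≤ (1 + 1 / (4 * (2 * γ + 1))) ^ k := by
    refine le_trans (le_of_eq ?_) hk
    rw [hM]
    push_cast
    ring
  -- the main step, for the more frequent value
  have key : ∃ w : Bool, ∃ A' ⊆ A₁, ∃ B' ⊆ B₁, A₁.card * B₁.card ≤ 4 * 8 ^ k * (A'.card * B'.card) ∧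
      M * ∑ x ∈ A', (B'.filter fun y => F x y ≠ w).card ≤ A'.card * B'.card ∧
      0 < A'.card * B'.card := by
    by_cases hmaj : A₁.card * B₁.card ≤ 2 * ∑ x ∈ A₁, (B₁.filter fun y => F x y = σ).card
    · refine ⟨σ, biased F A₁ B₁ hA₁0 hB₁0 (2 * γ + 1) (by linarith) u v
        (fun x hx => (Finset.mem_filter.mp hx).2) (fun y hy => (Finset.mem_filter.mp hy).2) τ σ
        (fun x hx y hy h => ?_) (fun x hx y hy h => ?_) M hM1 k hkM hmaj⟩
      · rw [huv x (hA₁s hx) y (hB₁s hy)]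
        exact (hF x y).1 h
      · rw [huv x (hA₁s hx) y (hB₁s hy)]
        exact (hF x y).2 h
    · refine ⟨!σ, biased F A₁ B₁ hA₁0 hB₁0 (2 * γ + 1) (by linarith) (fun x => -u x) v
        (fun x hx => by rw [norm_neg]; exact (Finset.mem_filter.mp hx).2)
        (fun y hy => (Finset.mem_filter.mp hy).2) (-τ - 1) (!σ)
        (fun x hx y hy h => ?_) (fun x hx y hy h => ?_) M hM1 k hkM ?_⟩
      · rw [inner_neg_left, huv x (hA₁s hx) y (hB₁s hy)]
        have h1 : F x y ≠ σ := by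
          rw [h]
          cases σ <;> simp
        have := (hF x y).2 h1
        linarith
      · rw [inner_neg_left, huv x (hA₁s hx) y (hB₁s hy)]
        have h1 : F x y = σ := by
          revert h
          cases σ <;> cases F x y <;> simp
        have := (hF x y).1 h1
        linarith
      · have h1 : ∑ x ∈ A₁, (B₁.filter fun y => F x y = σ).card +
            ∑ x ∈ A₁, (B₁.filter fun y => F x y = !σ).card = A₁.card * B₁.card := by
          rw [← Finset.sum_add_distrib]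
          have : ∀ x ∈ A₁, (B₁.filter fun y => F x y = σ).card +
              (B₁.filter fun y => F x y = !σ).card = B₁.card := by
            intro x _
            rw [← Finset.card_filter_add_card_filter_not (s := B₁) (fun y => F x y = σ)]
            congr 2
            ext y
            simp only [Finset.mem_filter]
            cases σ <;> cases F x y <;> simp
          rw [Finset.sum_congr rfl this, Finset.sum_const, smul_eq_mul]
        omega
  obtain ⟨w, A₂, hA₂, B₂, hB₂, hc, he, hpos⟩ := key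
  have hB₂0 : B₂.Nonempty := by
    rw [← Finset.card_pos]
    exact Nat.pos_of_mul_pos_left hpos
  obtain ⟨A₃, hA₃, B₃, hB₃, hmono, hc'⟩ := few_errors F A₂ B₂ hB₂0 w (comm F).rank
    (rk_le F A₂ B₂) he
  refine ⟨A₃, (hA₃.trans hA₂).trans hA₁s, B₃, (hB₃.trans hB₂).trans hB₁s, w, hmono, ?_⟩
  calc A.card * B.card ≤ (2 * A₁.card) * (2 * B₁.card) := Nat.mul_le_mul hA₁c hB₁c
    _ = 4 * (A₁.card * B₁.card) := by ring
    _ ≤ 4 * (4 * 8 ^ k * (A₂.card * B₂.card)) := Nat.mul_le_mul_left _ hc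
    _ ≤ 4 * (4 * 8 ^ k * (4 * (A₃.card * B₃.card))) :=
        Nat.mul_le_mul_left _ (Nat.mul_le_mul_left _ hc')
    _ = 64 * 8 ^ k * (A₃.card * B₃.card) := by ring

/-- Powers. -/
theorem pow_bound (R : ℝ) (hR : 1 ≤ R) (m : ℕ) :
    (2 : ℝ) ^ m ≤ (1 + 1 / (4 * R)) ^ (⌈4 * R⌉₊ * m) := by
  rw [pow_mul]
  refine pow_le_pow_left₀ (by norm_num) ?_ m
  have hn : 4 * R ≤ ⌈4 * R⌉₊ := Nat.le_ceil _
  have h0 : 0 < 4 * R := by linarith
  have h1 : 1 + (⌈4 * R⌉₊ : ℝ) * (1 / (4 * R)) ≤ (1 + 1 / (4 * R)) ^ ⌈4 * R⌉₊ :=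
    one_add_mul_le_pow (by
      have : 0 ≤ 1 / (4 * R) := by positivity
      linarith) _
  have h2 : 1 ≤ (⌈4 * R⌉₊ : ℝ) * (1 / (4 * R)) := by
    rw [mul_one_div, le_div_iff₀ h0]
    linarith
  linarith

/-- The protocol. -/
theorem proto {X Y : Type} [Fintype X] [Fintype Y] (F : X → Y → Bool) (S : X → Y → ℝ) (γ : ℝ)
    (hγ : 0 ≤ γ) (hS : Short S γ) (τ : ℝ) (σ : Bool) (hF : Sep F S τ σ) :
    ∃ c : ℕ, Proto F c ∧
      (c : ℝ) ≤ 224 * (2 * γ + 1) * (Real.logb 2 (comm F).rank + 1) ^ 2 := by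
  set r := (comm F).rank with hr
  set R := 2 * γ + 1 with hR
  have hR1 : 1 ≤ R := by linarith
  set m := Nat.clog 2 (16 * (r + 1)) with hm
  set k := ⌈4 * R⌉₊ * m with hk
  have hkk : 16 * (((comm F).rank : ℝ) + 1) ≤ (1 + 1 / (4 * (2 * γ + 1))) ^ k := by
    refine le_trans ?_ (pow_bound R hR1 m)
    have h1 : 16 * (r + 1) ≤ 2 ^ m := Nat.le_pow_clog (by norm_num) _
    rw [← hr]
    exact_mod_cast h1
  have hrich := rich F S γ hγ hS τ σ hF k hkk
  have hL := logb_nonneg r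
  rcases Nat.eq_zero_or_pos r with h0 | h0
  · refine ⟨1, ?_, ?_⟩
    · have := proto_rank F
      rw [← hr, h0] at this
      exact this
    · push_cast
      nlinarith
  have hw : 2 * r * (64 * 8 ^ k) + 2 ≤ 2 ^ (Nat.clog 2 r + 3 * k + 8) := by
    have h1 : r ≤ 2 ^ Nat.clog 2 r := Nat.le_pow_clog (by norm_num) _
    have h2 : (8 : ℕ) ^ k = 2 ^ (3 * k) := by rw [pow_mul 2 3 k]; norm_num
    rw [h2, pow_add, pow_add]
    have h3 : 1 ≤ 2 ^ Nat.clog 2 r := Nat.one_le_two_pow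
    have h4 : 1 ≤ 2 ^ (3 * k) := Nat.one_le_two_pow
    have h5 : 1 ≤ 2 ^ Nat.clog 2 r * 2 ^ (3 * k) := Nat.mul_le_mul h3 h4
    calc 2 * r * (64 * 2 ^ (3 * k)) + 2 = 128 * (r * 2 ^ (3 * k)) + 2 := by ring
      _ ≤ 128 * (2 ^ Nat.clog 2 r * 2 ^ (3 * k)) + 2 * (2 ^ Nat.clog 2 r * 2 ^ (3 * k)) :=
          Nat.add_le_add (Nat.mul_le_mul_left _ (Nat.mul_le_mul_right _ h1)) (by omega)
      _ ≤ 2 ^ Nat.clog 2 r * 2 ^ (3 * k) * 2 ^ 8 := by omega
  have hP := nw F (64 * 8 ^ k) (Nat.one_le_iff_ne_zero.mpr (by positivity)) hrich _ hw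
  refine ⟨_, hP, ?_⟩
  rw [← hr]
  set L := Real.logb 2 (r : ℝ) + 1 with hLdef
  have hL1 : 1 ≤ L := by linarith
  have hc : (Nat.clog 2 r : ℝ) ≤ L := clog_le r
  have hmL : (m : ℝ) ≤ 5 + L := by
    have h1 : 16 * (r + 1) ≤ 2 ^ 5 * r := by omega
    have h2 : m ≤ Nat.clog 2 (2 ^ 5 * r) := Nat.clog_mono_right 2 h1
    have h3 : (Nat.clog 2 (2 ^ 5 * r) : ℝ) ≤ Real.logb 2 ((2 ^ 5 * r : ℕ) : ℝ) + 1 := clog_le _
    have h4 : Real.logb 2 ((2 ^ 5 * r : ℕ) : ℝ) = 5 + Real.logb 2 (r : ℝ) := by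
      have h32 : Real.logb 2 ((2 : ℝ) ^ 5) = 5 := by
        rw [Real.logb_pow, Real.logb_self_eq_one (by norm_num)]
        norm_num
      rw [Nat.cast_mul, Nat.cast_pow, Nat.cast_ofNat,
        Real.logb_mul (by positivity) (by positivity), h32]
    have h5 : (m : ℝ) ≤ (Nat.clog 2 (2 ^ 5 * r) : ℝ) := by exact_mod_cast h2
    linarith
  have hn : (⌈4 * R⌉₊ : ℝ) ≤ 5 * R := by
    have := (Nat.ceil_lt_add_one (show (0 : ℝ) ≤ 4 * R by linarith)).le
    linarith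
  have hkR : (k : ℝ) ≤ 5 * R * (5 + L) := by
    rw [hk]
    push_cast
    exact mul_le_mul hn hmL (Nat.cast_nonneg _) (by linarith)
  have hRL : 1 ≤ R * L := one_le_mul_of_one_le_of_one_le hR1 hL1
  have hRL' : R ≤ R * L := le_mul_of_one_le_right (by linarith) hL1
  have hLR' : L ≤ R * L := le_mul_of_one_le_left (by linarith) hR1
  have hk2 : (k : ℝ) ≤ 30 * (R * L) := by
    have e : 5 * R * (5 + L) = 25 * R + 5 * (R * L) := by ring
    rw [e] at hkR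
    linarith
  push_cast
  have hw2 : (Nat.clog 2 r : ℝ) + 3 * k + 8 ≤ 99 * (R * L) := by linarith
  have h1 : 2 * ((Nat.clog 2 r : ℝ) + 3 * k + 8) * Nat.clog 2 r ≤ 2 * (99 * (R * L)) * L := by
    refine mul_le_mul (by linarith) hc (Nat.cast_nonneg _) (by positivity)
  have h2 : 2 ≤ 26 * (R * L * L) := by
    have : 1 ≤ R * L * L := one_le_mul_of_one_le_of_one_le hRL hL1
    linarith
  have e : 224 * R * L ^ 2 = 224 * (R * L * L) := by ring
  rw [e]
  have e2 : 2 * (99 * (R * L)) * L = 198 * (R * L * L) := by ring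
  rw [e2] at h1
  linarith

end Pool.Agent.H711.IN
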