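import Pool.Agent.H711.IN.Gauss

/-!
Rounding: rectangles on which the entries with large inner products dominate.
-/

set_option autoImplicit false

namespace Pool.Agent.H711.IN

open Finset

/-- Powers of the kernel. -/
theorem step_pow {X Y K : Type} [Fintype K] (A : Finset X) (B : Finset Y) (R : ℝ) (hR : 0 < R)
    (u : X → EuclideanSpace ℝ K) (v : Y → EuclideanSpace ℝ K) (hu : ∀ x ∈ A, ‖u x‖ ^ 2 = R)
    (hv : ∀ y ∈ B, ‖v y‖ ^ 2 = R) (k : ℕ) : ∀ c : X → Y → ℝ,
    ∃ (p : X → ℝ) (q : Y → ℝ), (∀ x, 0 ≤ p x ∧ p x ≤ 1) ∧ (∀ y, 0 ≤ q y ∧ q y ≤ 1) ∧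
      ∑ x ∈ A, ∑ y ∈ B, c x y * kern R (inner ℝ (u x) (v y)) ^ k ≤
        ∑ x ∈ A, ∑ y ∈ B, c x y * (p x * q y) := by
  induction k with
  | zero =>
    intro c
    refine ⟨fun _ => 1, fun _ => 1, fun _ => ⟨by norm_num, le_rfl⟩,
      fun _ => ⟨by norm_num, le_rfl⟩, ?_⟩
    simp
  | succ k ih =>
    intro c
    obtain ⟨p, q, hp, hq, h⟩ := step A B R hR u v hu hv
      (fun x y => c x y * kern R (inner ℝ (u x) (v y)) ^ k)
    obtain ⟨p', q', hp', hq', h'⟩ := ih (fun x y => c x y * (p x * q y))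
    refine ⟨fun x => p x * p' x, fun y => q y * q' y, fun x => ⟨mul_nonneg (hp x).1 (hp' x).1,
      mul_le_one₀ (hp x).2 (hp' x).1 (hp' x).2⟩, fun y => ⟨mul_nonneg (hq y).1 (hq' y).1,
      mul_le_one₀ (hq y).2 (hq' y).1 (hq' y).2⟩, ?_⟩
    calc ∑ x ∈ A, ∑ y ∈ B, c x y * kern R (inner ℝ (u x) (v y)) ^ (k + 1)
        = ∑ x ∈ A, ∑ y ∈ B, c x y * kern R (inner ℝ (u x) (v y)) ^ k *
            kern R (inner ℝ (u x) (v y)) :=
          Finset.sum_congr rfl fun x _ => Finset.sum_congr rfl fun y _ => by ring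
      _ ≤ ∑ x ∈ A, ∑ y ∈ B, c x y * kern R (inner ℝ (u x) (v y)) ^ k * (p x * q y) := h
      _ = ∑ x ∈ A, ∑ y ∈ B, c x y * (p x * q y) * kern R (inner ℝ (u x) (v y)) ^ k :=
          Finset.sum_congr rfl fun x _ => Finset.sum_congr rfl fun y _ => by ring
      _ ≤ ∑ x ∈ A, ∑ y ∈ B, c x y * (p x * q y) * (p' x * q' y) := h'
      _ = _ := Finset.sum_congr rfl fun x _ => Finset.sum_congr rfl fun y _ => by ring

/-- A bilinear form on a product of cubes is largest at a vertex. -/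
theorem vertex {X Y : Type} (A : Finset X) (B : Finset Y) (c : X → Y → ℝ) (p : X → ℝ) (q : Y → ℝ)
    (hp : ∀ x, 0 ≤ p x ∧ p x ≤ 1) (hq : ∀ y, 0 ≤ q y ∧ q y ≤ 1) :
    ∃ A' ⊆ A, ∃ B' ⊆ B, ∑ x ∈ A, ∑ y ∈ B, c x y * (p x * q y) ≤ ∑ x ∈ A', ∑ y ∈ B', c x y := by
  classical
  set h : X → ℝ := fun x => ∑ y ∈ B, c x y * q y with hh
  set A' := A.filter fun x => 0 < h x with hA'
  set k : Y → ℝ := fun y => ∑ x ∈ A', c x y with hk
  refine ⟨A', Finset.filter_subset _ _, B.filter (fun y => 0 < k y), Finset.filter_subset _ _, ?_⟩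
  calc ∑ x ∈ A, ∑ y ∈ B, c x y * (p x * q y) = ∑ x ∈ A, p x * h x := by
        refine Finset.sum_congr rfl fun x _ => ?_
        rw [hh, Finset.mul_sum]
        exact Finset.sum_congr rfl fun y _ => by ring
    _ ≤ ∑ x ∈ A', h x := by
        rw [hA', Finset.sum_filter]
        refine Finset.sum_le_sum fun x _ => ?_
        split_ifs with h3
        · exact mul_le_of_le_one_left h3.le (hp x).2
        · exact mul_nonpos_of_nonneg_of_nonpos (hp x).1 (not_lt.1 h3)
    _ = ∑ y ∈ B, q y * k y := by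
        rw [hh]
        simp only
        rw [Finset.sum_comm]
        refine Finset.sum_congr rfl fun y _ => ?_
        rw [hk, Finset.mul_sum]
        exact Finset.sum_congr rfl fun x _ => by ring
    _ ≤ ∑ y ∈ B.filter (fun y => 0 < k y), k y := by
        rw [Finset.sum_filter]
        refine Finset.sum_le_sum fun y _ => ?_
        split_ifs with h3
        · exact mul_le_of_le_one_left h3.le (hq y).2
        · exact mul_nonpos_of_nonneg_of_nonpos (hq y).1 (not_lt.1 h3)
    _ = _ := by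
        rw [hk]
        simp only
        rw [Finset.sum_comm]

/-- Vectors of length at most `√R` can be extended to vectors of length `√R` with the same inner
products. -/
theorem extend {X Y K : Type} [Fintype K] (A : Finset X) (B : Finset Y) (R : ℝ)
    (u : X → EuclideanSpace ℝ K) (v : Y → EuclideanSpace ℝ K) (hu : ∀ x ∈ A, ‖u x‖ ^ 2 ≤ R)
    (hv : ∀ y ∈ B, ‖v y‖ ^ 2 ≤ R) :
    ∃ (u' : X → EuclideanSpace ℝ (K ⊕ Bool)) (v' : Y → EuclideanSpace ℝ (K ⊕ Bool)),
      (∀ x ∈ A, ‖u' x‖ ^ 2 = R) ∧ (∀ y ∈ B, ‖v' y‖ ^ 2 = R) ∧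
      ∀ x y, inner ℝ (u' x) (v' y) = inner ℝ (u x) (v y) := by
  refine ⟨fun x => WithLp.toLp 2 (Sum.elim (fun i => u x i)
      (fun b => if b then √(R - ‖u x‖ ^ 2) else 0)),
    fun y => WithLp.toLp 2 (Sum.elim (fun i => v y i)
      (fun b => if b then 0 else √(R - ‖v y‖ ^ 2))), ?_, ?_, ?_⟩
  · intro x hx
    rw [EuclideanSpace.norm_sq_eq, Fintype.sum_sum_type]
    have h1 : ∑ i : K, ‖u x i‖ ^ 2 = ‖u x‖ ^ 2 := (EuclideanSpace.norm_sq_eq _).symm
    simp only [Sum.elim_inl, Sum.elim_inr, Fintype.sum_bool, if_true, Bool.false_eq_true, if_false,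
      norm_zero]
    rw [h1, Real.norm_eq_abs, sq_abs, Real.sq_sqrt (by linarith [hu x hx])]
    ring
  · intro y hy
    rw [EuclideanSpace.norm_sq_eq, Fintype.sum_sum_type]
    have h1 : ∑ i : K, ‖v y i‖ ^ 2 = ‖v y‖ ^ 2 := (EuclideanSpace.norm_sq_eq _).symm
    simp only [Sum.elim_inl, Sum.elim_inr, Fintype.sum_bool, if_true, Bool.false_eq_true, if_false,
      norm_zero]
    rw [h1, Real.norm_eq_abs, sq_abs, Real.sq_sqrt (by linarith [hv y hy])]
    ring
  · intro x y
    rw [PiLp.inner_apply, PiLp.inner_apply, Fintype.sum_sum_type]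
    simp

theorem kern_mono (R : ℝ) (hR : 0 < R) {z z' : ℝ} (h : z ≤ z') : kern R z ≤ kern R z' := by
  unfold kern
  have h1 : Real.sinh (z / R) ≤ Real.sinh (z' / R) :=
    Real.sinh_le_sinh.mpr (div_le_div_of_nonneg_right h hR.le)
  have h2 := mul_le_mul_of_nonneg_left h1 (Real.exp_pos (-1)).le
  linarith

theorem sinh_one_bound : Real.exp (-1) * Real.sinh 1 ≤ 0.44 := by
  rw [Real.sinh_eq]
  have h1 : Real.exp (-1) * ((Real.exp 1 - Real.exp (-1)) / 2) =
      (1 - Real.exp (-1) ^ 2) / 2 := by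
    have : Real.exp (-1) * Real.exp 1 = 1 := by rw [← Real.exp_add]; simp
    linear_combination this / 2
  rw [h1]
  have h2 : (0.36 : ℝ) ≤ Real.exp (-1) := by
    have := Real.exp_neg_one_gt_d9
    linarith
  nlinarith

theorem kern_low (R : ℝ) (hR : 0 < R) {z : ℝ} (h : -R ≤ z) : 0.14 ≤ kern R z := by
  refine le_trans ?_ (kern_mono R hR h)
  unfold kern
  have h1 : -R / R = -1 := by field_simp
  rw [h1, Real.sinh_neg]
  have := sinh_one_bound
  linarith

theorem kern_high (R : ℝ) (hR : 0 < R) {z : ℝ} (h : z ≤ R) : kern R z ≤ 0.36 := by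
  refine le_trans (kern_mono R hR h) ?_
  unfold kern
  have h1 : R / R = 1 := by field_simp
  rw [h1]
  have := sinh_one_bound
  linarith

/-- The gap. -/
theorem kern_gap (R : ℝ) (hR : 0 < R) (τ : ℝ) (h1 : -R ≤ τ) (h2 : τ + 1 ≤ R) :
    (1 + 1 / (4 * R)) * kern R τ ≤ kern R (τ + 1) := by
  have e1 : kern R τ + Real.exp (-1) / (4 * R) ≤ kern R (τ + 1) := by
    unfold kern
    have h3 : Real.sinh (τ / R) + 1 / R ≤ Real.sinh ((τ + 1) / R) := by
      have h4 : MonotoneOn (fun z => Real.sinh z - z) Set.univ := by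
        apply monotoneOn_of_deriv_nonneg convex_univ
        · exact (Real.continuous_sinh.sub continuous_id).continuousOn
        · exact (Real.differentiable_sinh.sub differentiable_id).differentiableOn
        · intro z _
          have h5 : deriv (fun z => Real.sinh z - z) z = Real.cosh z - 1 := by
            have := ((Real.hasDerivAt_sinh z).sub (hasDerivAt_id z)).deriv
            exact this
          rw [h5]
          have := Real.one_le_cosh z
          linarith
      have h6 : τ / R ≤ (τ + 1) / R := div_le_div_of_nonneg_right (by linarith) hR.le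
      have h7 := h4 (Set.mem_univ _) (Set.mem_univ _) h6
      simp only at h7
      have h8 : (τ + 1) / R - τ / R = 1 / R := by ring
      linarith
    have h9 := mul_le_mul_of_nonneg_left h3 (Real.exp_pos (-1)).le
    have h10 : Real.exp (-1) / (4 * R) = Real.exp (-1) * (1 / R) / 4 := by
      field_simp
    rw [h10]
    rw [mul_add] at h9
    linarith
  have e2 := kern_high R hR (z := τ) (by linarith)
  have e3 : (0.36 : ℝ) ≤ Real.exp (-1) := by
    have := Real.exp_neg_one_gt_d9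
    linarith
  have e4 : 1 / (4 * R) * kern R τ ≤ Real.exp (-1) / (4 * R) := by
    rw [div_mul_eq_mul_div, one_mul]
    exact div_le_div_of_nonneg_right (by linarith) (by linarith)
  linarith

end Pool.Agent.H711.IN
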