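import Mathlib

/-!
The spectral decomposition of real symmetric matrices in coordinates, and the number of negative
eigenvalues of matrices obtained by a congruence.
-/

set_option autoImplicit false

namespace Pool.Agent.H711.IN

open Finset

/-- Orthonormal eigenvectors and eigenvalues of a Hermitian matrix, in coordinates. -/
theorem spec_matrix {W : Type} [Fintype W] [DecidableEq W] (M : Matrix W W ℝ) (hM : M.IsHermitian) :
    ∃ e : W → W → ℝ, (∀ i j, ∑ w, e i w * e j w = if i = j then 1 else 0) ∧
      ∀ w w', M w w' = ∑ i, hM.eigenvalues i * e i w * e i w' := by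
  classical
  refine ⟨fun i w => hM.eigenvectorBasis i w, ?_, ?_⟩
  · intro i j
    have h := (orthonormal_iff_ite.mp hM.eigenvectorBasis.orthonormal) j i
    rw [PiLp.inner_apply] at h
    have h2 : ∑ w, hM.eigenvectorBasis i w * hM.eigenvectorBasis j w =
        ∑ w, inner ℝ (hM.eigenvectorBasis j w) (hM.eigenvectorBasis i w) := by
      refine Finset.sum_congr rfl fun w _ => ?_
      simp
    rw [h2, h]
    by_cases hij : i = j
    · simp [hij]
    · simp [hij, Ne.symm hij]
  · intro w w'
    have h := hM.spectral_theorem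
    have h1 := congrFun (congrFun h w) w'
    rw [h1]
    simp only [Unitary.conjStarAlgAut_apply, Matrix.mul_apply, Matrix.diagonal_apply,
      Matrix.star_apply, Function.comp]
    simp only [Matrix.IsHermitian.eigenvectorUnitary_apply]
    refine Finset.sum_congr rfl fun i _ => ?_
    simp
    exact Or.inl (mul_comm _ _)

/-- A symmetric matrix which is given by an orthonormal system of eigenvectors. -/
structure Spec {W : Type} [Fintype W] (N : W → W → ℝ) (l : W → ℝ) (e : W → W → ℝ) : Prop where
  orth : ∀ i j, i ≠ j → ∑ w, e i w * e j w = 0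
  norm : ∀ i, ∑ w, e i w * e i w = 1
  entry : ∀ w w', N w w' = ∑ i, l i * e i w * e i w'

theorem exists_spec {W : Type} [Fintype W] (N : W → W → ℝ) (hN : ∀ w w', N w w' = N w' w) :
    ∃ (l : W → ℝ) (e : W → W → ℝ), Spec N l e := by
  classical
  have hM : (Matrix.of N).IsHermitian := by
    ext w w'
    simp [Matrix.conjTranspose_apply, hN w' w]
  obtain ⟨e, h1, h2⟩ := spec_matrix (Matrix.of N) hM
  exact ⟨hM.eigenvalues, e, fun i j hij => by rw [h1, if_neg hij], fun i => by rw [h1, if_pos rfl],
    fun w w' => h2 w w'⟩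

theorem Spec.trace {W : Type} [Fintype W] {N : W → W → ℝ} {l : W → ℝ} {e : W → W → ℝ}
    (h : Spec N l e) : ∑ w, N w w = ∑ i, l i := by
  calc ∑ w, N w w = ∑ w, ∑ i, l i * e i w * e i w := Finset.sum_congr rfl fun w _ => h.entry w w
    _ = ∑ i, l i * ∑ w, e i w * e i w := by
        rw [Finset.sum_comm]
        refine Finset.sum_congr rfl fun i _ => ?_
        rw [Finset.mul_sum]
        exact Finset.sum_congr rfl fun w _ => by ring
    _ = ∑ i, l i := Finset.sum_congr rfl fun i _ => by rw [h.norm i, mul_one]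

theorem Spec.frob {W : Type} [Fintype W] {N : W → W → ℝ} {l : W → ℝ} {e : W → W → ℝ}
    (h : Spec N l e) : ∑ w, ∑ w', N w w' ^ 2 = ∑ i, l i ^ 2 := by
  classical
  have h1 : ∀ w w', N w w' ^ 2 = ∑ i, ∑ j, (l i * l j) * ((e i w * e j w) * (e i w' * e j w')) := by
    intro w w'
    rw [sq, h.entry w w', Finset.sum_mul_sum]
    refine Finset.sum_congr rfl fun i _ => Finset.sum_congr rfl fun j _ => by ring
  calc ∑ w, ∑ w', N w w' ^ 2
      = ∑ w, ∑ w', ∑ i, ∑ j, (l i * l j) * ((e i w * e j w) * (e i w' * e j w')) :=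
        Finset.sum_congr rfl fun w _ => Finset.sum_congr rfl fun w' _ => h1 w w'
    _ = ∑ i, ∑ j, (l i * l j) * ((∑ w, e i w * e j w) * ∑ w', e i w' * e j w') := by
        have e1 : ∀ w, ∑ w', ∑ i, ∑ j, (l i * l j) * ((e i w * e j w) * (e i w' * e j w')) =
            ∑ i, ∑ j, (l i * l j) * ((e i w * e j w) * ∑ w', e i w' * e j w') := by
          intro w
          rw [Finset.sum_comm]
          refine Finset.sum_congr rfl fun i _ => ?_
          rw [Finset.sum_comm]
          refine Finset.sum_congr rfl fun j _ => ?_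
          rw [Finset.mul_sum, Finset.mul_sum]
        rw [Finset.sum_congr rfl fun w _ => e1 w, Finset.sum_comm]
        refine Finset.sum_congr rfl fun i _ => ?_
        rw [Finset.sum_comm]
        refine Finset.sum_congr rfl fun j _ => ?_
        rw [Finset.sum_mul, Finset.mul_sum]
    _ = ∑ i, l i ^ 2 := by
        refine Finset.sum_congr rfl fun i _ => ?_
        rw [Finset.sum_eq_single i]
        · rw [h.norm i]; ring
        · intro j _ hj
          rw [h.orth i j (Ne.symm hj)]; ring
        · intro hi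
          exact absurd (Finset.mem_univ i) hi

theorem Spec.form {W : Type} [Fintype W] {N : W → W → ℝ} {l : W → ℝ} {e : W → W → ℝ}
    (h : Spec N l e) (a : W → ℝ) :
    ∑ w, ∑ w', a w * N w w' * a w' = ∑ i, l i * (∑ w, e i w * a w) ^ 2 := by
  have h1 : ∀ w w', a w * N w w' * a w' = ∑ i, l i * ((e i w * a w) * (e i w' * a w')) := by
    intro w w'
    rw [h.entry w w', Finset.mul_sum, Finset.sum_mul]
    exact Finset.sum_congr rfl fun i _ => by ring
  calc ∑ w, ∑ w', a w * N w w' * a w'
      = ∑ w, ∑ w', ∑ i, l i * ((e i w * a w) * (e i w' * a w')) :=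
        Finset.sum_congr rfl fun w _ => Finset.sum_congr rfl fun w' _ => h1 w w'
    _ = ∑ i, l i * ((∑ w, e i w * a w) * ∑ w', e i w' * a w') := by
        have e1 : ∀ w, ∑ w', ∑ i, l i * ((e i w * a w) * (e i w' * a w')) =
            ∑ i, l i * ((e i w * a w) * ∑ w', e i w' * a w') := by
          intro w
          rw [Finset.sum_comm]
          refine Finset.sum_congr rfl fun i _ => ?_
          rw [Finset.mul_sum, Finset.mul_sum]
        rw [Finset.sum_congr rfl fun w _ => e1 w, Finset.sum_comm]
        refine Finset.sum_congr rfl fun i _ => ?_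
        rw [Finset.sum_mul, Finset.mul_sum]
    _ = _ := Finset.sum_congr rfl fun i _ => by rw [sq]

/-- The coefficients of a combination of the eigenvectors. -/
theorem Spec.coeff {W : Type} [Fintype W] [DecidableEq W] {N : W → W → ℝ} {l : W → ℝ}
    {e : W → W → ℝ} (h : Spec N l e) (c : W → ℝ) (k : W) :
    ∑ w, e k w * ∑ i, c i * e i w = c k := by
  have h1 : ∑ w, e k w * ∑ i, c i * e i w = ∑ i, c i * ∑ w, e k w * e i w := by
    calc ∑ w, e k w * ∑ i, c i * e i w = ∑ w, ∑ i, c i * (e k w * e i w) := by
          refine Finset.sum_congr rfl fun w _ => ?_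
          rw [Finset.mul_sum]
          exact Finset.sum_congr rfl fun i _ => by ring
      _ = _ := by
          rw [Finset.sum_comm]
          exact Finset.sum_congr rfl fun i _ => by rw [Finset.mul_sum]
  rw [h1, Finset.sum_eq_single k]
  · rw [h.norm k, mul_one]
  · intro i _ hi
    rw [h.orth k i (Ne.symm hi), mul_zero]
  · intro hk
    exact absurd (Finset.mem_univ k) hk

/-- The quadratic form `x ↦ ∑ x_z S_{zz'} x_{z'} + θ ∑ x_z ^ 2` is nonnegative on the common kernel
of at most `t` linear functionals. -/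
def NegLe {Z : Type} [Fintype Z] (S : Z → Z → ℝ) (θ : ℝ) (t : ℕ) : Prop :=
  ∃ (J : Type) (_ : Fintype J) (f : J → Z → ℝ), Fintype.card J ≤ t ∧
    ∀ x : Z → ℝ, (∀ j, ∑ z, f j z * x z = 0) →
      0 ≤ ∑ z, ∑ z', x z * S z z' * x z' + θ * ∑ z, x z ^ 2

theorem parseval {Z : Type} [Fintype Z] [DecidableEq Z] {e : Z → Z → ℝ}
    (h1 : ∀ i j, ∑ w, e i w * e j w = if i = j then 1 else 0) (x : Z → ℝ) :
    ∑ z, x z ^ 2 = ∑ i, (∑ w, e i w * x w) ^ 2 := by
  have hid : Spec (fun z z' => if z = z' then (1 : ℝ) else 0) (fun _ => 1) e := by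
    refine ⟨fun i j hij => by rw [h1, if_neg hij], fun i => by rw [h1, if_pos rfl], ?_⟩
    intro w w'
    have hE : (Matrix.of fun i w => e i w) * (Matrix.of fun i w => e i w).transpose = 1 := by
      ext i j
      rw [Matrix.mul_apply]
      simp only [Matrix.of_apply, Matrix.transpose_apply, Matrix.one_apply]
      exact h1 i j
    have hE' := mul_eq_one_comm.mp hE
    have := congrFun (congrFun hE' w) w'
    rw [Matrix.mul_apply] at this
    simp only [Matrix.of_apply, Matrix.transpose_apply, Matrix.one_apply] at this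
    rw [← this]
    exact Finset.sum_congr rfl fun i _ => by ring
  have h3 := hid.form x
  have h4 : ∑ w, ∑ w', x w * (if w = w' then (1 : ℝ) else 0) * x w' = ∑ z, x z ^ 2 := by
    refine Finset.sum_congr rfl fun w _ => ?_
    rw [Finset.sum_eq_single w]
    · rw [if_pos rfl]; ring
    · intro b _ hb
      rw [if_neg (Ne.symm hb)]; ring
    · intro hw
      exact absurd (Finset.mem_univ w) hw
  rw [← h4, h3]
  exact Finset.sum_congr rfl fun i _ => by rw [one_mul]

theorem negLe_of_eigenvalues {Z : Type} [Fintype Z] [DecidableEq Z] (S : Matrix Z Z ℝ)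
    (hS : S.IsHermitian) (θ : ℝ) (t : ℕ)
    (ht : (univ.filter fun i => hS.eigenvalues i < -θ).card ≤ t) : NegLe (fun z z' => S z z') θ t := by
  classical
  obtain ⟨e, h1, h2⟩ := spec_matrix S hS
  have hspec : Spec (fun z z' => S z z') hS.eigenvalues e :=
    ⟨fun i j hij => by rw [h1, if_neg hij], fun i => by rw [h1, if_pos rfl], fun w w' => h2 w w'⟩
  refine ⟨{i // i ∈ univ.filter fun i => hS.eigenvalues i < -θ}, inferInstance,
    fun j z => e j.1 z, by rw [Fintype.card_coe]; exact ht, fun x hx => ?_⟩
  rw [hspec.form x, parseval h1, Finset.mul_sum, ← Finset.sum_add_distrib]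
  refine Finset.sum_nonneg fun i _ => ?_
  by_cases hi : hS.eigenvalues i < -θ
  · have := hx ⟨i, Finset.mem_filter.mpr ⟨Finset.mem_univ _, hi⟩⟩
    simp only at this
    rw [this]
    simp
  · push Not at hi
    have h5 : 0 ≤ (∑ w, e i w * x w) ^ 2 := sq_nonneg _
    nlinarith

theorem negLe_of_eigenvalues' {Z : Type} [Fintype Z] [DecidableEq Z] (S : Matrix Z Z ℝ)
    (hS : S.IsHermitian) (θ : ℝ) (t : ℕ)
    (ht : (univ.filter fun i => θ < hS.eigenvalues i).card ≤ t) :
    NegLe (fun z z' => -S z z') θ t := by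
  classical
  obtain ⟨e, h1, h2⟩ := spec_matrix S hS
  have hspec : Spec (fun z z' => S z z') hS.eigenvalues e :=
    ⟨fun i j hij => by rw [h1, if_neg hij], fun i => by rw [h1, if_pos rfl], fun w w' => h2 w w'⟩
  refine ⟨{i // i ∈ univ.filter fun i => θ < hS.eigenvalues i}, inferInstance,
    fun j z => e j.1 z, by rw [Fintype.card_coe]; exact ht, fun x hx => ?_⟩
  have h3 : ∑ z, ∑ z', x z * -S z z' * x z' = -∑ z, ∑ z', x z * S z z' * x z' := by
    rw [← Finset.sum_neg_distrib]
    refine Finset.sum_congr rfl fun z _ => ?_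
    rw [← Finset.sum_neg_distrib]
    exact Finset.sum_congr rfl fun z' _ => by ring
  rw [h3, hspec.form x, parseval h1, Finset.mul_sum, ← Finset.sum_neg_distrib,
    ← Finset.sum_add_distrib]
  refine Finset.sum_nonneg fun i _ => ?_
  by_cases hi : θ < hS.eigenvalues i
  · have := hx ⟨i, Finset.mem_filter.mpr ⟨Finset.mem_univ _, hi⟩⟩
    simp only at this
    rw [this]
    simp
  · push Not at hi
    have h5 : 0 ≤ (∑ w, e i w * x w) ^ 2 := sq_nonneg _
    nlinarith

/-- A matrix obtained from `S + θ` by repeating and scaling rows and columns has at most `t`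
negative eigenvalues. -/
theorem neg_count {Z W : Type} [Fintype Z] [DecidableEq Z] [Fintype W] (S : Z → Z → ℝ) (θ : ℝ)
    (t : ℕ) (hS : NegLe S θ t) (g : W → Z) (c : W → ℝ) {l : W → ℝ} {e : W → W → ℝ}
    (h : Spec (fun w w' => c w * c w' * (S (g w) (g w') + if g w = g w' then θ else 0)) l e)
    [DecidablePred fun i => l i < 0] :
    (univ.filter fun i => l i < 0).card ≤ t := by
  classical
  obtain ⟨J, _, f, hJ, hf⟩ := hS
  refine le_trans ?_ hJ
  by_contra hcon
  push Not at hcon
  set I := {i // l i < 0} with hI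
  have hIc : Fintype.card I = (univ.filter fun i => l i < 0).card := by
    rw [Fintype.card_subtype]
  let Φ : (I → ℝ) →ₗ[ℝ] (J → ℝ) :=
    { toFun := fun α j => ∑ w, f j (g w) * (c w * ∑ i : I, α i * e i.1 w)
      map_add' := by
        intro α β
        funext j
        simp only [Pi.add_apply, add_mul, Finset.sum_add_distrib, mul_add]
      map_smul' := by
        intro s α
        funext j
        simp only [Pi.smul_apply, smul_eq_mul, RingHom.id_apply, Finset.mul_sum]
        refine Finset.sum_congr rfl fun w _ => Finset.sum_congr rfl fun i _ => by ring }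
  have hker : LinearMap.ker Φ ≠ ⊥ := by
    apply LinearMap.ker_ne_bot_of_finrank_lt
    rw [Module.finrank_fintype_fun_eq_card, Module.finrank_fintype_fun_eq_card, hIc]
    exact hcon
  obtain ⟨α, hα, hα0⟩ := (Submodule.ne_bot_iff _).mp hker
  have hΦ : ∀ j, ∑ w, f j (g w) * (c w * ∑ i : I, α i * e i.1 w) = 0 := fun j =>
    congrFun (LinearMap.mem_ker.mp hα) j
  -- the vector
  set c' : W → ℝ := fun i => if hi : l i < 0 then α ⟨i, hi⟩ else 0 with hc'
  set a : W → ℝ := fun w => ∑ i, c' i * e i w with ha
  have hsum : ∀ w, ∑ i : I, α i * e i.1 w = a w := by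
    intro w
    have h1 : ∑ i, c' i * e i w = ∑ i ∈ univ.filter (fun i => l i < 0), c' i * e i w := by
      symm
      apply Finset.sum_filter_of_ne
      intro i _ hne
      by_contra hi
      apply hne
      have : c' i = 0 := by rw [hc']; simp only [dif_neg hi]
      rw [this, zero_mul]
    show _ = ∑ i, c' i * e i w
    rw [h1, Finset.sum_subtype (univ.filter fun i => l i < 0) (p := fun i => l i < 0)
      (fun x => by simp)]
    refine Finset.sum_congr rfl fun i _ => ?_
    have : c' i.1 = α i := dif_pos i.2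
    rw [this]
  have hΦ' : ∀ j, ∑ w, f j (g w) * (c w * a w) = 0 := by
    intro j
    rw [← hΦ j]
    exact Finset.sum_congr rfl fun w _ => by rw [hsum w]
  -- the vector indexed by `Z`
  set x : Z → ℝ := fun z => ∑ w, if g w = z then c w * a w else 0 with hx
  have hpush : ∀ φ : Z → ℝ, ∑ z, φ z * x z = ∑ w, φ (g w) * (c w * a w) := by
    intro φ
    calc ∑ z, φ z * x z = ∑ z, ∑ w, φ z * (if g w = z then c w * a w else 0) :=
          Finset.sum_congr rfl fun z _ => by rw [hx, Finset.mul_sum]
      _ = ∑ w, ∑ z, φ z * (if g w = z then c w * a w else 0) := Finset.sum_comm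
      _ = _ := by
          refine Finset.sum_congr rfl fun w _ => ?_
          rw [Finset.sum_eq_single (g w)]
          · rw [if_pos rfl]
          · intro z _ hz
            rw [if_neg (Ne.symm hz), mul_zero]
          · intro hz
            exact absurd (Finset.mem_univ _) hz
  have hnn := hf x (fun j => by rw [hpush (f j)]; exact hΦ' j)
  have hform := h.form a
  have hE1 : ∑ z, ∑ z', x z * S z z' * x z' =
      ∑ w, ∑ w', a w * (c w * c w' * S (g w) (g w')) * a w' := by
    calc ∑ z, ∑ z', x z * S z z' * x z' = ∑ z, (∑ z', S z z' * x z') * x z := by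
          refine Finset.sum_congr rfl fun z _ => ?_
          rw [Finset.sum_mul]
          exact Finset.sum_congr rfl fun z' _ => by ring
      _ = ∑ w, (∑ z', S (g w) z' * x z') * (c w * a w) := hpush fun z => ∑ z', S z z' * x z'
      _ = _ := by
          refine Finset.sum_congr rfl fun w _ => ?_
          rw [hpush fun z' => S (g w) z', Finset.sum_mul]
          exact Finset.sum_congr rfl fun w' _ => by ring
  have hE2 : ∑ z, x z ^ 2 = ∑ w, ∑ w', a w * (c w * c w' * (if g w = g w' then 1 else 0)) * a w' := by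
    calc ∑ z, x z ^ 2 = ∑ z, x z * x z := Finset.sum_congr rfl fun z _ => sq _
      _ = ∑ w, x (g w) * (c w * a w) := hpush x
      _ = _ := by
          refine Finset.sum_congr rfl fun w _ => ?_
          rw [hx]
          simp only
          rw [Finset.sum_mul]
          refine Finset.sum_congr rfl fun w' _ => ?_
          by_cases hg : g w' = g w
          · rw [if_pos hg, if_pos hg.symm]; ring
          · rw [if_neg hg, if_neg (Ne.symm hg)]; ring
  have hE : ∑ w, ∑ w', a w * (c w * c w' * (S (g w) (g w') + if g w = g w' then θ else 0)) * a w' =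
      ∑ z, ∑ z', x z * S z z' * x z' + θ * ∑ z, x z ^ 2 := by
    rw [hE1, hE2, Finset.mul_sum, ← Finset.sum_add_distrib]
    refine Finset.sum_congr rfl fun w _ => ?_
    rw [Finset.mul_sum, ← Finset.sum_add_distrib]
    refine Finset.sum_congr rfl fun w' _ => ?_
    split_ifs <;> ring
  rw [← hE, hform] at hnn
  have hcoef : ∀ k, ∑ w, e k w * a w = c' k := fun k => h.coeff c' k
  have hneg : ∑ i, l i * (∑ w, e i w * a w) ^ 2 < 0 := by
    obtain ⟨i₀, hi₀⟩ : ∃ i, α i ≠ 0 := by
      by_contra hall
      push Not at hall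
      exact hα0 (funext hall)
    have hle : ∀ i ∈ (univ : Finset W), l i * (∑ w, e i w * a w) ^ 2 ≤ 0 := by
      intro i _
      rw [hcoef i]
      by_cases hi : l i < 0
      · exact mul_nonpos_of_nonpos_of_nonneg hi.le (sq_nonneg _)
      · have : c' i = 0 := by rw [hc']; simp only [dif_neg hi]
        rw [this]
        simp
    refine Finset.sum_neg' hle ⟨i₀.1, Finset.mem_univ _, ?_⟩
    rw [hcoef i₀.1]
    have : c' i₀.1 = α i₀ := dif_pos i₀.2
    rw [this]
    exact mul_neg_of_neg_of_pos i₀.2 (by positivity)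
  linarith

end Pool.Agent.H711.IN
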