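import Pool.Agent.H711.IN.Main

/-!
The VC dimension of matrices given by vectors which are short on average.
-/

set_option autoImplicit false

namespace Pool.Agent.H711.IN

open Finset Pool.Agent.H630R2.LR Pool.Agent.R533.VC

theorem proto_of_growth {X Y : Type} [Fintype X] [Fintype Y] (F : X → Y → Bool) (d : ℕ)
    (hG : Growth F d) :
    ∃ c : ℕ, Proto F c ∧ (c : ℝ) ≤ d * Real.logb 2 ((comm F).rank + 1 : ℝ) + 2 := by
  classical
  obtain ⟨T, hT, h⟩ := exists_trace F
  set x : Fin T.card → X := fun i => (T.equivFin.symm i).1 with hx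
  set P : Finset (Fin T.card → Bool) := univ.image (fun (y : Y) (i : Fin T.card) => F (x i) y)
    with hP
  have hPc : P.card ≤ ((comm F).rank + 1) ^ d :=
    (hG T.card x univ).trans (Nat.pow_le_pow_left (by omega) d)
  set w := Nat.clog 2 (((comm F).rank + 1) ^ d) with hw
  have h1 : Proto F (1 + w) := by
    refine Proto.sendY (Q := P) F (fun y => ⟨fun i => F (x i) y,
      Finset.mem_image.mpr ⟨y, Finset.mem_univ _, rfl⟩⟩) w (by
        rw [Fintype.card_coe]
        exact hPc.trans (Nat.le_pow_clog (by norm_num) _))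
      (fun q z _ => if h : ∃ y : Y, ∀ i, F (x i) y = q.1 i then F z h.choose else false) 1
      (fun q => ?_) (fun z y => ?_)
    · refine Proto.alice _
        (fun z => if h : ∃ y : Y, ∀ i, F (x i) y = q.1 i then F z h.choose else false)
        (fun v _ _ => v) 0 (fun v => Proto.const _ v fun _ _ => rfl) (fun x y => rfl)
    · have hex : ∃ y' : Y, ∀ i, F (x i) y' = F (x i) y := ⟨y, fun _ => rfl⟩
      show F z y = if h : ∃ y' : Y, ∀ i, F (x i) y' = F (x i) y then F z h.choose else false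
      rw [dif_pos hex]
      refine h y _ (fun a ha => ?_) z
      have h2 := hex.choose_spec (T.equivFin ⟨a, ha⟩)
      have h3 : x (T.equivFin ⟨a, ha⟩) = a := by
        rw [hx]
        simp
      rw [h3] at h2
      exact h2.symm
  refine ⟨_, h1, ?_⟩
  push_cast
  have h2 : (w : ℝ) ≤ Real.logb 2 (((((comm F).rank + 1) ^ d : ℕ)) : ℝ) + 1 := clog_le _
  have h3 : Real.logb 2 (((((comm F).rank + 1) ^ d : ℕ)) : ℝ) =
      d * Real.logb 2 ((comm F).rank + 1 : ℝ) := by
    push_cast
    rw [Real.logb_pow]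
  rw [h3] at h2
  linarith

/-- flipping one bit -/
def flip {k : ℕ} (i : Fin k) : (Fin k → Bool) → (Fin k → Bool) := fun s => Function.update s i (!s i)

theorem flip_flip {k : ℕ} (i : Fin k) (s : Fin k → Bool) : flip i (flip i s) = s := by
  unfold flip
  simp

theorem sum_flip {k : ℕ} (i : Fin k) (f : (Fin k → Bool) → ℝ) :
    ∑ s, f (flip i s) = ∑ s, f s :=
  Fintype.sum_equiv (Equiv.mk (flip i) (flip i) (flip_flip i) (flip_flip i)) _ _ fun _ => rfl

/-- signs -/
def eps (σ b : Bool) : ℝ := if b = σ then 1 else -1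

theorem eps_not (σ b : Bool) : eps σ (!b) = -eps σ b := by
  unfold eps
  cases σ <;> cases b <;> simp

theorem eps_sq (σ b : Bool) : eps σ b * eps σ b = 1 := by
  unfold eps
  split_ifs <;> norm_num

theorem sum_eps {k : ℕ} (σ : Bool) (i : Fin k) : ∑ s : Fin k → Bool, eps σ (s i) = 0 := by
  have h := sum_flip i (fun s => eps σ (s i))
  have h1 : ∀ s : Fin k → Bool, eps σ (flip i s i) = -eps σ (s i) := by
    intro s
    unfold flip
    rw [Function.update_self, eps_not]
  rw [Finset.sum_congr rfl fun s _ => h1 s, Finset.sum_neg_distrib] at h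
  linarith

theorem sum_eps_mul {k : ℕ} (σ : Bool) (i j : Fin k) (hij : i ≠ j) :
    ∑ s : Fin k → Bool, eps σ (s i) * eps σ (s j) = 0 := by
  have h := sum_flip i (fun s => eps σ (s i) * eps σ (s j))
  have h1 : ∀ s : Fin k → Bool, eps σ (flip i s i) * eps σ (flip i s j) =
      -(eps σ (s i) * eps σ (s j)) := by
    intro s
    unfold flip
    rw [Function.update_self, Function.update_of_ne (Ne.symm hij), eps_not]
    ring
  rw [Finset.sum_congr rfl fun s _ => h1 s, Finset.sum_neg_distrib] at h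
  linarith

theorem vc {X Y : Type} (F : X → Y → Bool) (S : X → Y → ℝ) (γ : ℝ) (hγ : 0 ≤ γ) (hS : Short S γ)
    (τ : ℝ) (σ : Bool) (hF : Sep F S τ σ) : VCdim F ⌊4 * γ ^ 2⌋₊ := by
  classical
  intro k x hx
  rcases Nat.eq_zero_or_pos k with hk | hk
  · rw [hk]; exact Nat.zero_le _
  choose y hy using hx
  have hyinj : Function.Injective y := by
    intro s s' h
    funext i
    rw [← hy s i, ← hy s' i, h]
  have hxinj : Function.Injective x := by
    intro i j h
    by_contra hij
    have h1 := hy (Function.update (fun _ => true) i false) i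
    have h2 := hy (Function.update (fun _ => true) i false) j
    rw [h] at h1
    rw [Function.update_self] at h1
    rw [Function.update_of_ne (Ne.symm hij)] at h2
    rw [h1] at h2
    exact Bool.noConfusion h2
  set A : Finset X := univ.image x with hA
  set B : Finset Y := univ.image y with hB
  have hAc : A.card = k := by
    rw [hA, Finset.card_image_of_injective _ hxinj, Finset.card_univ, Fintype.card_fin]
  have hBc : B.card = 2 ^ k := by
    rw [hB, Finset.card_image_of_injective _ hyinj, Finset.card_univ, Fintype.card_fun,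
      Fintype.card_bool, Fintype.card_fin]
  obtain ⟨K, _, u, v, huv, hu, hv⟩ := hS A B (by rw [← Finset.card_pos, hAc]; exact hk)
    (by rw [← Finset.card_pos, hBc]; positivity)
  have hu' : ∑ i, ‖u (x i)‖ ^ 2 ≤ γ * k := by
    rw [hA, Finset.sum_image (fun a _ b _ h => hxinj h)] at hu
    rw [← hA, hAc] at hu
    exact hu
  have hv' : ∑ s, ‖v (y s)‖ ^ 2 ≤ γ * 2 ^ k := by
    rw [hB, Finset.sum_image (fun a _ b _ h => hyinj h)] at hv
    rw [← hB, hBc] at hv
    exact_mod_cast hv
  have huv' : ∀ i s, inner ℝ (u (x i)) (v (y s)) = S (x i) (y s) := fun i s =>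
    huv _ (Finset.mem_image_of_mem _ (Finset.mem_univ _)) _
      (Finset.mem_image_of_mem _ (Finset.mem_univ _))
  set U : (Fin k → Bool) → EuclideanSpace ℝ K := fun s => ∑ i, eps σ (s i) • u (x i) with hU
  -- lower bound
  have hlow : (k : ℝ) * 2 ^ k / 2 ≤ ∑ s, inner ℝ (U s) (v (y s)) := by
    have e1 : ∑ s, inner ℝ (U s) (v (y s)) =
        ∑ i, ∑ s : Fin k → Bool, eps σ (s i) * S (x i) (y s) := by
      rw [Finset.sum_comm]
      refine Finset.sum_congr rfl fun s _ => ?_
      rw [hU, sum_inner]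
      refine Finset.sum_congr rfl fun i _ => ?_
      rw [real_inner_smul_left, huv']
    have e2 : ∀ i : Fin k, (2 : ℝ) ^ k / 2 ≤ ∑ s : Fin k → Bool, eps σ (s i) * S (x i) (y s) := by
      intro i
      have e3 : ∑ s : Fin k → Bool, (eps σ (s i) * τ + (1 + eps σ (s i)) / 2) = 2 ^ k / 2 := by
        rw [Finset.sum_add_distrib, ← Finset.sum_mul, sum_eps, zero_mul, zero_add,
          ← Finset.sum_div, Finset.sum_add_distrib, sum_eps, add_zero, Finset.sum_const,
          Finset.card_univ, Fintype.card_fun, Fintype.card_bool, Fintype.card_fin]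
        simp
      rw [← e3]
      refine Finset.sum_le_sum fun s _ => ?_
      have h1 := hF (x i) (y s)
      rw [hy s i] at h1
      unfold eps
      by_cases h : s i = σ
      · rw [if_pos h]
        have := h1.1 h
        linarith
      · rw [if_neg h]
        have := h1.2 h
        linarith
    rw [e1]
    calc (k : ℝ) * 2 ^ k / 2 = ∑ _i : Fin k, (2 : ℝ) ^ k / 2 := by
          rw [Finset.sum_const, Finset.card_univ, Fintype.card_fin, nsmul_eq_mul]
          ring
      _ ≤ _ := Finset.sum_le_sum fun i _ => e2 i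
  -- upper bound
  have hUU : ∑ s, ‖U s‖ ^ 2 = 2 ^ k * ∑ i, ‖u (x i)‖ ^ 2 := by
    have e1 : ∀ s, ‖U s‖ ^ 2 = ∑ i, ∑ j, (eps σ (s i) * eps σ (s j)) *
        inner ℝ (u (x i)) (u (x j)) := by
      intro s
      rw [← real_inner_self_eq_norm_sq, hU, sum_inner]
      refine Finset.sum_congr rfl fun i _ => ?_
      rw [inner_sum]
      refine Finset.sum_congr rfl fun j _ => ?_
      rw [real_inner_smul_left, real_inner_smul_right]
      ring
    rw [Finset.sum_congr rfl fun s _ => e1 s, Finset.sum_comm, Finset.mul_sum]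
    refine Finset.sum_congr rfl fun i _ => ?_
    rw [Finset.sum_comm, Finset.sum_eq_single i]
    · rw [real_inner_self_eq_norm_sq, ← Finset.sum_mul]
      congr 1
      rw [Finset.sum_congr rfl fun s _ => eps_sq σ (s i)]
      simp
    · intro j _ hj
      rw [← Finset.sum_mul, sum_eps_mul σ i j (Ne.symm hj), zero_mul]
    · intro h
      exact absurd (Finset.mem_univ i) h
  have hup : (∑ s, inner ℝ (U s) (v (y s))) ^ 2 ≤ (2 ^ k * (γ * k)) * (γ * 2 ^ k) := by
    have h0 : 0 ≤ ∑ s, inner ℝ (U s) (v (y s)) := le_trans (by positivity) hlow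
    have h1 : ∑ s, inner ℝ (U s) (v (y s)) ≤ ∑ s, ‖U s‖ * ‖v (y s)‖ :=
      Finset.sum_le_sum fun s _ => real_inner_le_norm _ _
    have h2 : (∑ s, ‖U s‖ * ‖v (y s)‖) ^ 2 ≤ (∑ s, ‖U s‖ ^ 2) * ∑ s, ‖v (y s)‖ ^ 2 :=
      Finset.sum_mul_sq_le_sq_mul_sq _ _ _
    calc (∑ s, inner ℝ (U s) (v (y s))) ^ 2 ≤ (∑ s, ‖U s‖ * ‖v (y s)‖) ^ 2 :=
          pow_le_pow_left₀ h0 h1 2
      _ ≤ (∑ s, ‖U s‖ ^ 2) * ∑ s, ‖v (y s)‖ ^ 2 := h2
      _ ≤ (2 ^ k * (γ * k)) * (γ * 2 ^ k) := by
          refine mul_le_mul ?_ hv' (Finset.sum_nonneg fun s _ => sq_nonneg _) (by positivity)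
          rw [hUU]
          exact mul_le_mul_of_nonneg_left hu' (by positivity)
  have hk0 : (0 : ℝ) < k := by exact_mod_cast hk
  have h2k : (0 : ℝ) < 2 ^ k := by positivity
  have hsq : ((k : ℝ) * 2 ^ k / 2) ^ 2 ≤ (2 ^ k * (γ * k)) * (γ * 2 ^ k) :=
    (pow_le_pow_left₀ (by positivity) hlow 2).trans hup
  have hfin : (k : ℝ) ≤ 4 * γ ^ 2 := by
    have e1 : ((k : ℝ) * 2 ^ k / 2) ^ 2 = (k * (2 ^ k) ^ 2 / 4) * k := by ring
    have e2 : (2 ^ k * (γ * k)) * (γ * 2 ^ k) = (k * (2 ^ k) ^ 2 / 4) * (4 * γ ^ 2) := by ring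
    rw [e1, e2] at hsq
    exact le_of_mul_le_mul_left hsq (by positivity)
  exact Nat.le_floor hfin

/-- The protocol from the VC dimension. -/
theorem proto_vc {X Y : Type} [Fintype X] [Fintype Y] (F : X → Y → Bool) (S : X → Y → ℝ) (γ : ℝ)
    (hγ : 0 ≤ γ) (hS : Short S γ) (τ : ℝ) (σ : Bool) (hF : Sep F S τ σ) :
    ∃ c : ℕ, Proto F c ∧ (c : ℝ) ≤ 4 * γ ^ 2 * Real.logb 2 ((comm F).rank + 1 : ℝ) + 2 := by
  obtain ⟨c, hc, h⟩ := proto_of_growth F _ (growth_of_vc F _ (vc F S γ hγ hS τ σ hF))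
  refine ⟨c, hc, h.trans ?_⟩
  have h1 : ((⌊4 * γ ^ 2⌋₊ : ℕ) : ℝ) ≤ 4 * γ ^ 2 := Nat.floor_le (by positivity)
  have h2 : 0 ≤ Real.logb 2 ((comm F).rank + 1 : ℝ) :=
    Real.logb_nonneg (by norm_num) (by
      have : (0 : ℝ) ≤ (comm F).rank := Nat.cast_nonneg _
      linarith)
  nlinarith

end Pool.Agent.H711.IN
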